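import Mathlib

/-!
The factorization of `x ^ p - y ^ p = b ^ r` for coprime integers `x`, `y` and an odd prime `p`.
-/

set_option autoImplicit false

namespace Pool.Agent.TH863

open Finset

/-- the second factor of `x ^ p - y ^ p` -/
def GG (p : ℕ) (x y : ℤ) : ℤ := ∑ i ∈ range p, x ^ i * y ^ (p - 1 - i)

lemma GG_mul (p : ℕ) (x y : ℤ) : GG p x y * (x - y) = x ^ p - y ^ p := geom_sum₂_mul x y p

lemma prime_dvd_both {p : ℕ} (hp : p.Prime) {x y : ℤ} (hxy : IsCoprime x y) {l : ℕ}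
    (hl : l.Prime) (h1 : (l : ℤ) ∣ x - y) (h2 : (l : ℤ) ∣ GG p x y) : l = p := by
  have hl' : Prime (l : ℤ) := Nat.prime_iff_prime_int.1 hl
  have h3 : (l : ℤ) ∣ (p : ℤ) * x ^ (p - 1) := (dvd_geom_sum₂_iff_of_dvd_sub' h1).1 h2
  rcases hl'.dvd_or_dvd h3 with h | h
  · exact (Nat.prime_dvd_prime_iff_eq hl hp).1 (Int.natCast_dvd_natCast.1 h)
  · exfalso
    have hx : (l : ℤ) ∣ x := hl'.dvd_of_dvd_pow h
    have hy : (l : ℤ) ∣ y := by
      have := dvd_sub hx h1
      simpa using this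
    exact hl'.not_unit (hxy.isUnit_of_dvd' hx hy)

lemma prime_dvd_GG {p : ℕ} (hp : p.Prime) {x y : ℤ} (hxy : IsCoprime x y) {l : ℕ}
    (hl : l.Prime) (hlp : l ≠ p) (h2 : (l : ℤ) ∣ GG p x y) : l % p = 1 := by
  have hl' : Prime (l : ℤ) := Nat.prime_iff_prime_int.1 hl
  have h1 : ¬ (l : ℤ) ∣ x - y := fun h => hlp (prime_dvd_both hp hxy hl h h2)
  haveI : Fact l.Prime := ⟨hl⟩
  have hpow : (x : ZMod l) ^ p = (y : ZMod l) ^ p := by
    have h3 : (l : ℤ) ∣ x ^ p - y ^ p := by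
      rw [← GG_mul]
      exact h2.mul_right _
    have h4 := (ZMod.intCast_zmod_eq_zero_iff_dvd (x ^ p - y ^ p) l).2 h3
    push_cast at h4
    exact sub_eq_zero.1 h4
  have hne : (x : ZMod l) ≠ (y : ZMod l) := by
    intro h
    apply h1
    rw [← ZMod.intCast_zmod_eq_zero_iff_dvd]
    push_cast
    rw [h, sub_self]
  have hy0 : (y : ZMod l) ≠ 0 := by
    intro h
    rw [h, zero_pow hp.ne_zero] at hpow
    have hx0 : (x : ZMod l) = 0 := by
      by_contra hc
      exact pow_ne_zero p hc hpow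
    have e1 : (l : ℤ) ∣ x := (ZMod.intCast_zmod_eq_zero_iff_dvd x l).1 hx0
    have e2 : (l : ℤ) ∣ y := (ZMod.intCast_zmod_eq_zero_iff_dvd y l).1 h
    exact hl'.not_unit (hxy.isUnit_of_dvd' e1 e2)
  set t : ZMod l := (x : ZMod l) / y with ht
  have ht1 : t ^ p = 1 := by
    rw [ht, div_pow, hpow, div_self (pow_ne_zero _ hy0)]
  have ht2 : t ≠ 1 := by
    intro h
    rw [ht, div_eq_one_iff_eq hy0] at h
    exact hne h
  have hord : orderOf t = p := by
    rcases (Nat.dvd_prime hp).1 (orderOf_dvd_of_pow_eq_one ht1) with h | h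
    · exact absurd (orderOf_eq_one_iff.1 h) ht2
    · exact h
  have ht0 : t ≠ 0 := div_ne_zero (by
    intro h
    rw [h, zero_pow hp.ne_zero] at hpow
    exact pow_ne_zero p hy0 hpow.symm) hy0
  have hdvd : p ∣ l - 1 := by
    rw [← hord]
    exact orderOf_dvd_of_pow_eq_one (ZMod.pow_card_sub_one_eq_one ht0)
  obtain ⟨c, hc⟩ := hdvd
  have : l = p * c + 1 := by
    have := hl.one_le
    omega
  rw [this, Nat.mul_add_mod, Nat.mod_eq_of_lt hp.one_lt]

theorem split {p : ℕ} (hp : p.Prime) (hp2 : p ≠ 2) {x y : ℤ} (hxy : IsCoprime x y) {b r : ℕ}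
    (hb : 0 < b) (hr : 1 ≤ r) (hd : 0 < x - y) (h : x ^ p - y ^ p = (b : ℤ) ^ r) :
    ∃ b1 b2 e : ℕ, e ≤ 1 ∧ b = b1 * b2 ∧ Nat.Coprime b1 b2 ∧ 0 < b1 ∧ 0 < b2 ∧
      (p : ℤ) ^ e * (x - y) = (b1 : ℤ) ^ r ∧ GG p x y = (p : ℤ) ^ e * (b2 : ℤ) ^ r ∧
      (e = 1 → p ∣ b1) ∧ (e = 0 → ¬ p ∣ b) ∧ ¬ p ∣ b2 ∧
      (∀ l : ℕ, l.Prime → l ∣ b2 → l % p = 1) := by
  have hodd : Odd p := hp.odd_of_ne_two hp2
  have hpI : Prime (p : ℤ) := Nat.prime_iff_prime_int.1 hp
  have hbr : (0 : ℤ) < (b : ℤ) ^ r := by positivity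
  have hmul : GG p x y * (x - y) = (b : ℤ) ^ r := by rw [GG_mul, h]
  have hG : 0 < GG p x y := by
    by_contra hc
    push Not at hc
    have := mul_nonpos_of_nonpos_of_nonneg hc hd.le
    omega
  -- naturals
  obtain ⟨D, hD⟩ := Int.eq_ofNat_of_zero_le hd.le
  obtain ⟨G, hGe⟩ := Int.eq_ofNat_of_zero_le hG.le
  have hDpos : 0 < D := by
    have : (0 : ℤ) < D := by rw [← hD]; exact hd
    exact_mod_cast this
  have hGpos : 0 < G := by
    have : (0 : ℤ) < G := by rw [← hGe]; exact hG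
    exact_mod_cast this
  have hGD : G * D = b ^ r := by
    have : (G : ℤ) * D = (b : ℤ) ^ r := by rw [← hD, ← hGe, hmul]
    exact_mod_cast this
  have hboth : ∀ l : ℕ, l.Prime → l ∣ D → l ∣ G → l = p := by
    intro l hl h1 h2
    refine prime_dvd_both hp hxy hl ?_ ?_
    · rw [hD]; exact_mod_cast h1
    · rw [hGe]; exact_mod_cast h2
  -- general construction
  have build : ∀ e G' : ℕ, e ≤ 1 → G = p ^ e * G' → ¬ p ∣ G' → (e = 1 → p ∣ D) →
      (e = 0 → ¬ p ∣ b) →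
      ∃ b1 b2 e : ℕ, e ≤ 1 ∧ b = b1 * b2 ∧ Nat.Coprime b1 b2 ∧ 0 < b1 ∧ 0 < b2 ∧
      (p : ℤ) ^ e * (x - y) = (b1 : ℤ) ^ r ∧ GG p x y = (p : ℤ) ^ e * (b2 : ℤ) ^ r ∧
      (e = 1 → p ∣ b1) ∧ (e = 0 → ¬ p ∣ b) ∧ ¬ p ∣ b2 ∧
      (∀ l : ℕ, l.Prime → l ∣ b2 → l % p = 1) := by
    intro e G' he hG' hpG' heD heb
    have hG'pos : 0 < G' := by
      rcases Nat.eq_zero_or_pos G' with h0 | h0
      · rw [h0] at hpG'; simp at hpG'
      · exact h0
    have hcop : Nat.Coprime (p ^ e * D) G' := by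
      rw [Nat.coprime_iff_gcd_eq_one]
      by_contra hne
      obtain ⟨l, hl, hdl⟩ := Nat.exists_prime_and_dvd hne
      have h1 : l ∣ p ^ e * D := hdl.trans (Nat.gcd_dvd_left _ _)
      have h2 : l ∣ G' := hdl.trans (Nat.gcd_dvd_right _ _)
      have hlp : l ≠ p := fun h => hpG' (h ▸ h2)
      have h3 : l ∣ D := by
        rcases hl.dvd_mul.1 h1 with h | h
        · exact absurd ((Nat.prime_dvd_prime_iff_eq hl hp).1 (hl.dvd_of_dvd_pow h)) hlp
        · exact h
      exact hlp (hboth l hl h3 (hG' ▸ h2.mul_left _))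
    have hprod : (p ^ e * D) * G' = b ^ r := by
      rw [← hGD, hG']
      ring
    obtain ⟨b1, hb1⟩ := exists_eq_pow_of_mul_eq_pow
      (a := p ^ e * D) (b := G') (c := b) (k := r) (by
        rw [Nat.isUnit_iff]
        exact hcop) hprod
    obtain ⟨b2, hb2⟩ := exists_eq_pow_of_mul_eq_pow
      (a := G') (b := p ^ e * D) (c := b) (k := r) (by
        rw [Nat.isUnit_iff]
        exact hcop.symm) (by rw [mul_comm]; exact hprod)
    have hb12 : b = b1 * b2 := by
      have : b ^ r = (b1 * b2) ^ r := by rw [mul_pow, ← hb1, ← hb2, hprod]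
      exact Nat.pow_left_injective (by omega) this
    have hb1pos : 0 < b1 := by
      rcases Nat.eq_zero_or_pos b1 with h0 | h0
      · rw [h0, zero_mul] at hb12; omega
      · exact h0
    have hb2pos : 0 < b2 := by
      rcases Nat.eq_zero_or_pos b2 with h0 | h0
      · rw [h0, mul_zero] at hb12; omega
      · exact h0
    have hpb2 : ¬ p ∣ b2 := fun hd2 => hpG' (by
      rw [hb2]
      exact dvd_pow hd2 (by omega))
    refine ⟨b1, b2, e, he, hb12, ?_, hb1pos, hb2pos, ?_, ?_, ?_, heb, hpb2, ?_⟩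
    · have h1 : Nat.Coprime (b1 ^ r) (b2 ^ r) := by rw [← hb1, ← hb2]; exact hcop
      exact (Nat.coprime_pow_left_iff (by omega) _ _).1
        ((Nat.coprime_pow_right_iff (by omega) _ _).1 h1)
    · rw [hD]
      exact_mod_cast hb1
    · rw [hGe, hG', hb2]
      push_cast
      ring
    · intro he1
      have h1 : p ∣ b1 ^ r := by
        rw [← hb1]
        exact (heD he1).mul_left _
      exact hp.dvd_of_dvd_pow h1
    · intro l hl hlb2
      have hlp : l ≠ p := fun h => hpb2 (h ▸ hlb2)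
      refine prime_dvd_GG hp hxy hl hlp ?_
      rw [hGe, hG', hb2]
      exact_mod_cast (dvd_pow hlb2 (by omega)).mul_left _
  by_cases hpD : p ∣ D
  · -- `p` divides `D`
    have hpxy : (p : ℤ) ∣ x - y := by rw [hD]; exact_mod_cast hpD
    have hpx : ¬ (p : ℤ) ∣ x := by
      intro hx
      have hy : (p : ℤ) ∣ y := by
        have := dvd_sub hx hpxy
        simpa using this
      exact hpI.not_unit (hxy.isUnit_of_dvd' hx hy)
    have hmult : emultiplicity (p : ℤ) (GG p x y) = 1 :=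
      emultiplicity_geom_sum₂_eq_one hpI hodd hpxy hpx
    rw [← Nat.cast_one, emultiplicity_eq_coe] at hmult
    obtain ⟨m1, m2⟩ := hmult
    rw [pow_one, hGe, Int.natCast_dvd_natCast] at m1
    obtain ⟨G', hG'⟩ := m1
    refine build 1 G' le_rfl (by rw [pow_one]; exact hG') ?_ (fun _ => hpD) (fun h => by omega)
    intro hpG'
    apply m2
    obtain ⟨c, hc⟩ := hpG'
    refine ⟨c, ?_⟩
    rw [hGe, hG', hc]
    push_cast
    ring
  · -- `p` does not divide `D`
    have hpb : ¬ p ∣ b := by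
      intro hpb
      haveI : Fact p.Prime := ⟨hp⟩
      have h1 : (p : ℤ) ∣ x ^ p - y ^ p := by
        rw [h]
        exact_mod_cast dvd_pow hpb (by omega)
      have h2 := (ZMod.intCast_zmod_eq_zero_iff_dvd (x ^ p - y ^ p) p).2 h1
      push_cast at h2
      rw [ZMod.pow_card, ZMod.pow_card] at h2
      apply hpD
      have h3 : ((x - y : ℤ) : ZMod p) = 0 := by
        push_cast
        exact h2
      have h4 := (ZMod.intCast_zmod_eq_zero_iff_dvd (x - y) p).1 h3
      rw [hD] at h4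
      exact_mod_cast h4
    have hpG : ¬ p ∣ G := by
      intro hpG
      apply hpb
      have : p ∣ b ^ r := by
        rw [← hGD]
        exact hpG.mul_right _
      exact hp.dvd_of_dvd_pow this
    exact build 0 G (by omega) (by simp) hpG (fun h => by omega) (fun _ => hpb)

end Pool.Agent.TH863
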