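import Mathlib
import Pool.Agent.TH863.Alg

/-!
The values of `n` with `p ^ e * n ^ r = GG p x (x - d)` occupy at most half of the classes.
-/

set_option autoImplicit false

namespace Pool.Agent.TH863

open Finset

/-- the form as a function on a commutative ring -/
def ff {R : Type} [CommRing R] (p : ℕ) (d t : R) : R := ∑ i ∈ range p, t ^ i * (t - d) ^ (p - 1 - i)

lemma ff_symm {R : Type} [CommRing R] {p : ℕ} (hp : Odd p) (d t : R) : ff p d (d - t) = ff p d t := by
  unfold ff
  have h1 : ∀ i ∈ range p, (d - t) ^ i * (d - t - d) ^ (p - 1 - i) =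
      t ^ (p - 1 - i) * (t - d) ^ i := by
    intro i hi
    have hi' := Finset.mem_range.1 hi
    have e1 : d - t - d = -1 * t := by ring
    have e2 : d - t = -1 * (t - d) := by ring
    rw [e1, e2, mul_pow, mul_pow]
    have e3 : (-1 : R) ^ i * (-1) ^ (p - 1 - i) = 1 := by
      rw [← pow_add]
      have : i + (p - 1 - i) = p - 1 := by omega
      rw [this]
      exact Even.neg_one_pow (Nat.Odd.sub_odd hp odd_one)
    calc (-1 : R) ^ i * (t - d) ^ i * ((-1) ^ (p - 1 - i) * t ^ (p - 1 - i))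
        = ((-1 : R) ^ i * (-1) ^ (p - 1 - i)) * (t ^ (p - 1 - i) * (t - d) ^ i) := by ring
      _ = _ := by rw [e3, one_mul]
  rw [Finset.sum_congr rfl h1]
  rw [← Finset.sum_range_reflect]
  refine Finset.sum_congr rfl fun i hi => ?_
  have hi' := Finset.mem_range.1 hi
  have : p - 1 - (p - 1 - i) = i := by omega
  rw [this]

lemma card_ff_image {l : ℕ} [Fact l.Prime] (hl2 : l ≠ 2) {p : ℕ} (hp : Odd p) (d : ZMod l) :
    2 * ((univ : Finset (ZMod l)).image (ff p d)).card ≤ l + 1 := by
  classical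
  set I := (univ : Finset (ZMod l)).image (ff p d) with hI
  have h2 : (2 : ZMod l) ≠ 0 := by
    intro h
    have h3 : ((2 : ℕ) : ZMod l) = 0 := by exact_mod_cast h
    rw [ZMod.natCast_eq_zero_iff] at h3
    have hl := (Fact.out : l.Prime)
    exact hl2 ((Nat.prime_dvd_prime_iff_eq hl Nat.prime_two).1 h3)
  set v0 := ff p d (d / 2) with hv0
  have hv0I : v0 ∈ I := Finset.mem_image.2 ⟨d / 2, Finset.mem_univ _, rfl⟩
  have hcard : (univ : Finset (ZMod l)).card = ∑ v ∈ I, ((univ : Finset (ZMod l)).filter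
      (fun t => ff p d t = v)).card := Finset.card_eq_sum_card_image (ff p d) univ
  rw [Finset.card_univ, ZMod.card] at hcard
  have hbig : ∀ v ∈ I.erase v0, 2 ≤ ((univ : Finset (ZMod l)).filter
      (fun t => ff p d t = v)).card := by
    intro v hv
    obtain ⟨hne, hvI⟩ := Finset.mem_erase.1 hv
    obtain ⟨t, _, rfl⟩ := Finset.mem_image.1 hvI
    have hneq : t ≠ d - t := by
      intro h
      apply hne
      have : t = d / 2 := by
        rw [eq_div_iff h2]
        linear_combination h
      rw [hv0, ← this]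
    have hsub : ({t, d - t} : Finset (ZMod l)) ⊆
        (univ : Finset (ZMod l)).filter (fun s => ff p d s = ff p d t) := by
      intro s hs
      rw [Finset.mem_filter]
      refine ⟨Finset.mem_univ _, ?_⟩
      rcases Finset.mem_insert.1 hs with h | h
      · rw [h]
      · rw [Finset.mem_singleton.1 h]
        exact ff_symm hp d t
    calc 2 = ({t, d - t} : Finset (ZMod l)).card := (Finset.card_pair hneq).symm
      _ ≤ _ := Finset.card_le_card hsub
  have hone : 1 ≤ ((univ : Finset (ZMod l)).filter (fun t => ff p d t = v0)).card := by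
    apply Finset.card_pos.2
    exact ⟨d / 2, Finset.mem_filter.2 ⟨Finset.mem_univ _, rfl⟩⟩
  rw [← Finset.add_sum_erase I _ hv0I] at hcard
  have h3 : 2 * (I.erase v0).card ≤ ∑ v ∈ I.erase v0, ((univ : Finset (ZMod l)).filter
      (fun t => ff p d t = v)).card := by
    rw [mul_comm, ← smul_eq_mul]
    exact Finset.card_nsmul_le_sum _ _ _ hbig
  have h4 : (I.erase v0).card = I.card - 1 := Finset.card_erase_of_mem hv0I
  have h5 : 1 ≤ I.card := Finset.card_pos.2 ⟨v0, hv0I⟩
  omega

lemma pow_inj_of_coprime {l : ℕ} [Fact l.Prime] {r : ℕ} (hr : 1 ≤ r)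
    (h : Nat.Coprime r (l - 1)) {s t : ZMod l} (hst : s ^ r = t ^ r) : s = t := by
  by_cases ht : t = 0
  · rw [ht, zero_pow (by omega)] at hst
    rw [ht]
    by_contra hs
    exact pow_ne_zero r hs hst
  · have hs : s ≠ 0 := by
      intro hs
      rw [hs, zero_pow (by omega)] at hst
      exact pow_ne_zero r ht hst.symm
    have h1 : (s / t) ^ r = 1 := by rw [div_pow, hst, div_self (pow_ne_zero _ ht)]
    have h2 : (s / t) ^ (l - 1) = 1 := ZMod.pow_card_sub_one_eq_one (div_ne_zero hs ht)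
    have h3 : orderOf (s / t) ∣ Nat.gcd r (l - 1) :=
      Nat.dvd_gcd (orderOf_dvd_of_pow_eq_one h1) (orderOf_dvd_of_pow_eq_one h2)
    rw [h, Nat.dvd_one, orderOf_eq_one_iff, div_eq_one_iff_eq ht] at h3
    exact h3

lemma classes {l : ℕ} (hl : l.Prime) (hl2 : l ≠ 2) {p : ℕ} (hp : Odd p) {e r : ℕ} (hr : 1 ≤ r)
    (hcop : Nat.Coprime r (l - 1)) (hpl : ¬ l ∣ p ^ e) (d : ℤ) (A : Finset ℕ)
    (hA : ∀ n ∈ A, ∃ x : ℤ, GG p x (x - d) = (p : ℤ) ^ e * (n : ℤ) ^ r) :
    2 * (A.image (fun n => n % l)).card ≤ l + 1 := by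
  classical
  haveI : Fact l.Prime := ⟨hl⟩
  set B : Finset (ZMod l) := A.image (fun n : ℕ => (n : ZMod l)) with hB
  have h1 : A.image (fun n => n % l) = B.image (fun t : ZMod l => t.val) := by
    ext v
    simp only [hB, Finset.mem_image]
    constructor
    · rintro ⟨n, hn, rfl⟩
      exact ⟨(n : ZMod l), ⟨n, hn, rfl⟩, ZMod.val_natCast l n⟩
    · rintro ⟨t, ⟨n, hn, rfl⟩, rfl⟩
      exact ⟨n, hn, (ZMod.val_natCast l n).symm⟩
  have h2 : (A.image (fun n => n % l)).card ≤ B.card := by
    rw [h1]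
    exact Finset.card_image_le
  have hu : ((p : ZMod l)) ^ e ≠ 0 := by
    intro h
    apply hpl
    rw [← ZMod.natCast_eq_zero_iff]
    push_cast
    exact h
  have h3 : (B.image (fun t => (p : ZMod l) ^ e * t ^ r)).card = B.card := by
    apply Finset.card_image_of_injective
    intro s t hst
    exact pow_inj_of_coprime hr hcop (mul_left_cancel₀ hu hst)
  have h4 : B.image (fun t => (p : ZMod l) ^ e * t ^ r) ⊆
      (univ : Finset (ZMod l)).image (ff p (d : ZMod l)) := by
    intro v hv
    obtain ⟨t, ht, rfl⟩ := Finset.mem_image.1 hv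
    simp only [hB, Finset.mem_image] at ht
    obtain ⟨n, hn, rfl⟩ := ht
    obtain ⟨x, hx⟩ := hA n hn
    refine Finset.mem_image.2 ⟨(x : ZMod l), Finset.mem_univ _, ?_⟩
    have := congrArg (fun z : ℤ => (z : ZMod l)) hx
    simp only [GG] at this
    push_cast at this
    rw [ff]
    exact this
  have h5 := Finset.card_le_card h4
  have h6 := card_ff_image hl2 hp (d : ZMod l)
  omega

end Pool.Agent.TH863
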