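import Mathlib
import Pool.Agent.H617R3.BT.Sieve

/-!
Many primes `l ≤ T ^ 10` with `l - 1` prime to a given prime `r ≥ 5`.
-/

set_option autoImplicit false

namespace Pool.Agent.TH863

open Finset Real

/-- the odd primes up to `Q` which are not `1` modulo `r` -/
noncomputable def good (r Q : ℕ) : Finset ℕ :=
  (Icc 3 Q).filter (fun l => l.Prime ∧ ¬ r ∣ l - 1)

/-- the primes up to `Q` which are `1` modulo `r` -/
noncomputable def bad (r Q : ℕ) : Finset ℕ :=
  (Icc 3 Q).filter (fun l => l.Prime ∧ r ∣ l - 1)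

lemma good_add_bad (r Q : ℕ) : Nat.primeCounting Q ≤ (good r Q).card + (bad r Q).card + 1 := by
  classical
  have h1 : Nat.primeCounting Q = ((range (Q + 1)).filter Nat.Prime).card := by
    rw [Nat.primeCounting, Nat.primeCounting', Nat.count_eq_card_filter_range]
  rw [h1]
  have h2 : (range (Q + 1)).filter Nat.Prime ⊆ insert 2 (good r Q ∪ bad r Q) := by
    intro l hl
    simp only [Finset.mem_filter, Finset.mem_range] at hl
    simp only [Finset.mem_insert, Finset.mem_union, good, bad, Finset.mem_filter, Finset.mem_Icc]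
    have := hl.2.two_le
    by_cases h : l = 2
    · exact Or.inl h
    · right
      by_cases hr : r ∣ l - 1
      · exact Or.inr ⟨⟨by omega, by omega⟩, hl.2, hr⟩
      · exact Or.inl ⟨⟨by omega, by omega⟩, hl.2, hr⟩
  calc ((range (Q + 1)).filter Nat.Prime).card ≤ (insert 2 (good r Q ∪ bad r Q)).card :=
        Finset.card_le_card h2
    _ ≤ (good r Q ∪ bad r Q).card + 1 := Finset.card_insert_le _ _
    _ ≤ (good r Q).card + (bad r Q).card + 1 := by
        have := Finset.card_union_le (good r Q) (bad r Q)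
        omega

lemma bad_trivial (r Q : ℕ) (hr : 1 ≤ r) : (bad r Q).card ≤ Q / r + 1 := by
  classical
  have h : bad r Q ⊆ (range (Q / r + 1)).image (fun t => 1 + t * r) := by
    intro l hl
    simp only [bad, Finset.mem_filter, Finset.mem_Icc] at hl
    obtain ⟨⟨h1, h2⟩, _, c, hc⟩ := hl
    refine Finset.mem_image.2 ⟨c, Finset.mem_range.2 ?_, ?_⟩
    · have : c ≤ Q / r := by
        rw [Nat.le_div_iff_mul_le hr]
        calc c * r = l - 1 := by rw [hc, mul_comm]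
          _ ≤ Q := by omega
      omega
    · rw [mul_comm c r, ← hc]
      omega
  calc (bad r Q).card ≤ _ := Finset.card_le_card h
    _ ≤ _ := Finset.card_image_le
    _ = Q / r + 1 := Finset.card_range _

lemma bad_sieve (r Q R : ℕ) (hr : r.Prime) (hR : 1 ≤ R) :
    ((bad r Q).card : ℝ) ≤ ((r : ℝ) / (r - 1)) * ((Q : ℝ) / r + 1) / Real.log ((R : ℝ) + 1) +
        ((R : ℝ) * (1 + Real.log R / Real.log 2)) ^ 2 + (R + 1) := by
  classical
  have hr1 := hr.one_le
  have h : (bad r Q).card ≤ ((range (Q / r + 1)).filter (fun t => (1 + t * r).Prime)).card := by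
    have h : bad r Q ⊆ ((range (Q / r + 1)).filter (fun t => (1 + t * r).Prime)).image
        (fun t => 1 + t * r) := by
      intro l hl
      simp only [bad, Finset.mem_filter, Finset.mem_Icc] at hl
      obtain ⟨⟨h1, h2⟩, hp, c, hc⟩ := hl
      have e : 1 + c * r = l := by
        rw [mul_comm c r, ← hc]
        omega
      refine Finset.mem_image.2 ⟨c, Finset.mem_filter.2 ⟨Finset.mem_range.2 ?_, ?_⟩, e⟩
      · have : c ≤ Q / r := by
          rw [Nat.le_div_iff_mul_le hr1]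
          calc c * r = l - 1 := by rw [hc, mul_comm]
            _ ≤ Q := by omega
        omega
      · rw [e]; exact hp
    exact (Finset.card_le_card h).trans Finset.card_image_le
  have hcore := Pool.Agent.H617R3.BT.core 1 r (Q / r + 1) R hr1 hR
  have hlog : 0 < Real.log ((R : ℝ) + 1) := Real.log_pos (by
    have : (1 : ℝ) ≤ R := by exact_mod_cast hR
    linarith)
  have hr2 : (2 : ℝ) ≤ r := by exact_mod_cast hr.two_le
  have htot : (Nat.totient r : ℝ) = r - 1 := by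
    rw [Nat.totient_prime hr, Nat.cast_sub hr1, Nat.cast_one]
  rw [htot] at hcore
  have h1 : (((Q / r + 1 : ℕ)) : ℝ) ≤ (Q : ℝ) / r + 1 := by
    push_cast
    have := @Nat.cast_div_le ℝ _ _ _ Q r
    linarith
  have h2 : ((r : ℝ) / (r - 1)) * ((Q / r + 1 : ℕ) : ℝ) / Real.log ((R : ℝ) + 1) ≤
      ((r : ℝ) / (r - 1)) * ((Q : ℝ) / r + 1) / Real.log ((R : ℝ) + 1) := by
    have : (0 : ℝ) ≤ (r : ℝ) / (r - 1) := div_nonneg (by linarith) (by linarith)
    gcongr
  have h3 : ((bad r Q).card : ℝ) ≤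
      (((range (Q / r + 1)).filter (fun t => (1 + t * r).Prime)).card : ℝ) := by exact_mod_cast h
  linarith

lemma small_logs : ∃ T₀ : ℕ, 3 ≤ T₀ ∧ ∀ T : ℕ, T₀ ≤ T →
    1 ≤ Real.log T ∧ Real.log T ^ 3 ≤ T / 1000000 ∧ Real.log T ≤ T / 1000000 := by
  have h1 : ∀ᶠ x : ℝ in Filter.atTop, ‖Real.log x ^ 3‖ ≤ (1 / 1000000 : ℝ) * ‖id x‖ :=
    (isLittleO_pow_log_id_atTop (n := 3)).def (by norm_num)
  have h2 : ∀ᶠ T : ℕ in Filter.atTop, ‖Real.log (T : ℝ) ^ 3‖ ≤ (1 / 1000000 : ℝ) * ‖id (T : ℝ)‖ :=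
    tendsto_natCast_atTop_atTop.eventually h1
  obtain ⟨T₁, hT₁⟩ := Filter.eventually_atTop.1 h2
  refine ⟨max T₁ 3, le_max_right _ _, fun T hT => ?_⟩
  have hT3 : 3 ≤ T := (le_max_right _ _).trans hT
  have hTR : (3 : ℝ) ≤ T := by exact_mod_cast hT3
  have hlog : 1 ≤ Real.log T := by
    rw [Real.le_log_iff_exp_le (by linarith)]
    have := Real.exp_one_lt_d9
    linarith
  have h3 := hT₁ T ((le_max_left _ _).trans hT)
  have h4 : Real.log T ^ 3 ≤ T / 1000000 := by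
    rw [Real.norm_of_nonneg (by positivity), id, Real.norm_of_nonneg (by positivity)] at h3
    linarith
  refine ⟨hlog, h4, le_trans ?_ h4⟩
  calc Real.log T = Real.log T ^ 1 := (pow_one _).symm
    _ ≤ Real.log T ^ 3 := pow_le_pow_right₀ hlog (by norm_num)

set_option maxHeartbeats 2000000 in
theorem good_primes : ∃ T₀ : ℕ, 3 ≤ T₀ ∧ ∀ T : ℕ, T₀ ≤ T → ∀ r : ℕ, r.Prime → 5 ≤ r →
    (T : ℝ) ^ 10 / 1000 ≤ Real.log T * (good r (T ^ 10)).card := by
  obtain ⟨T₀, hT₀, hlogs⟩ := small_logs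
  refine ⟨T₀, hT₀, fun T hT r hr hr5 => ?_⟩
  obtain ⟨l1, l3, l2⟩ := hlogs T hT
  have hT3 : 3 ≤ T := hT₀.trans hT
  have hTR : (3 : ℝ) ≤ T := by exact_mod_cast hT3
  set L := Real.log T with hL
  have hQlog : Real.log ((T ^ 10 : ℕ) : ℝ) = 10 * L := by
    push_cast
    rw [Real.log_pow, hL]
    norm_num
  have hpi := Chebyshev.pi_ge (T ^ 10)
  have hT10 : (1 : ℝ) ≤ (T : ℝ) ^ 10 := one_le_pow₀ (by linarith)
  have hlog1 : Real.log (((T ^ 10 : ℕ) : ℝ) + 1) ≤ 11 * L := by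
    have : (((T ^ 10 : ℕ) : ℝ) + 1) ≤ (T : ℝ) ^ 11 := by
      push_cast
      have : (T : ℝ) ^ 11 = T ^ 10 * T := pow_succ _ _
      nlinarith
    calc Real.log (((T ^ 10 : ℕ) : ℝ) + 1) ≤ Real.log ((T : ℝ) ^ 11) :=
          Real.log_le_log (by positivity) this
      _ = 11 * L := by rw [Real.log_pow, hL]; norm_num
  rw [hQlog] at hpi
  have hpi2 : (T : ℝ) ^ 10 * Real.log 2 - 11 * L ≤ 10 * L * (Nat.primeCounting (T ^ 10) : ℝ) := by
    have h1 : (((T ^ 10 : ℕ) : ℝ) * Real.log 2 - Real.log (((T ^ 10 : ℕ) : ℝ) + 1)) ≤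
        (Nat.primeCounting (T ^ 10) : ℝ) * (10 * L) := by
      rwa [div_le_iff₀ (by positivity)] at hpi
    push_cast at h1 hlog1
    linarith
  have hgb : (Nat.primeCounting (T ^ 10) : ℝ) ≤
      (good r (T ^ 10)).card + (bad r (T ^ 10)).card + 1 := by
    exact_mod_cast good_add_bad r (T ^ 10)
  have hlog2 : 0.6931 ≤ Real.log 2 := by
    have := Real.log_two_gt_d9
    linarith
  have hT9 : (T : ℝ) ^ 10 = T ^ 9 * T := pow_succ _ _
  have hT8 : (T : ℝ) ^ 9 = T ^ 8 * T := pow_succ _ _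
  have p8 : (1 : ℝ) ≤ (T : ℝ) ^ 8 := one_le_pow₀ (by linarith)
  have p9 : (1 : ℝ) ≤ (T : ℝ) ^ 9 := one_le_pow₀ (by linarith)
  -- the bound for the bad primes
  have hbad : L * (bad r (T ^ 10)).card ≤ 0.0626 * (T : ℝ) ^ 10 := by
    have hrR : (5 : ℝ) ≤ r := by exact_mod_cast hr5
    rcases le_or_gt r T with hrT | hrT
    · have h := bad_sieve r (T ^ 10) (T ^ 4) hr (Nat.one_le_pow _ _ (by omega))
      have e1 : ((r : ℝ) / (r - 1)) * ((((T ^ 10 : ℕ)) : ℝ) / r + 1) ≤ (T : ℝ) ^ 10 / 4 + 5 / 4 := by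
        push_cast
        have h1 : ((r : ℝ) / (r - 1)) * ((T : ℝ) ^ 10 / r + 1) =
            (T : ℝ) ^ 10 / (r - 1) + r / (r - 1) := by
          have : (r : ℝ) - 1 ≠ 0 := by linarith
          field_simp
        rw [h1]
        have h2 : (T : ℝ) ^ 10 / (r - 1) ≤ (T : ℝ) ^ 10 / 4 := by
          apply div_le_div_of_nonneg_left (by positivity) (by norm_num) (by linarith)
        have h3 : (r : ℝ) / (r - 1) ≤ 5 / 4 := by
          rw [div_le_div_iff₀ (by linarith) (by norm_num)]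
          linarith
        linarith
      have e2 : 4 * L ≤ Real.log (((T ^ 4 : ℕ) : ℝ) + 1) := by
        have : (4 : ℝ) * L = Real.log ((T : ℝ) ^ 4) := by rw [Real.log_pow, hL]; norm_num
        rw [this]
        apply Real.log_le_log (by positivity)
        push_cast
        linarith
      have e3 : ((r : ℝ) / (r - 1)) * ((((T ^ 10 : ℕ)) : ℝ) / r + 1) /
          Real.log (((T ^ 4 : ℕ) : ℝ) + 1) ≤ ((T : ℝ) ^ 10 / 4 + 5 / 4) / (4 * L) :=
        div_le_div₀ (by positivity) e1 (by positivity) e2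
      have e4 : L * (((T : ℝ) ^ 10 / 4 + 5 / 4) / (4 * L)) = (T : ℝ) ^ 10 / 16 + 5 / 16 := by
        field_simp
        ring
      have e5 : Real.log (((T ^ 4 : ℕ) : ℝ)) = 4 * L := by
        push_cast
        rw [Real.log_pow, hL]
        norm_num
      rw [e5] at h
      have e6 : 1 + 4 * L / Real.log 2 ≤ 7 * L := by
        have : 4 * L / Real.log 2 ≤ 6 * L := by
          rw [div_le_iff₀ (by linarith)]
          nlinarith
        linarith
      have e6' : 0 ≤ 1 + 4 * L / Real.log 2 := by positivity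
      have e7 : ((((T ^ 4 : ℕ)) : ℝ) * (1 + 4 * L / Real.log 2)) ^ 2 ≤ (T : ℝ) ^ 8 * (49 * L ^ 2) := by
        push_cast
        rw [mul_pow]
        have : ((T : ℝ) ^ 4) ^ 2 = (T : ℝ) ^ 8 := by rw [← pow_mul]
        rw [this]
        have h1 : (1 + 4 * L / Real.log 2) ^ 2 ≤ (7 * L) ^ 2 := pow_le_pow_left₀ e6' e6 2
        have h2 : (7 * L) ^ 2 = 49 * L ^ 2 := by ring
        rw [h2] at h1
        exact mul_le_mul_of_nonneg_left h1 (by positivity)
      have e8 : L * ((T : ℝ) ^ 8 * (49 * L ^ 2)) ≤ (T : ℝ) ^ 10 * 0.00005 := by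
        have : L * ((T : ℝ) ^ 8 * (49 * L ^ 2)) = (T : ℝ) ^ 8 * 49 * L ^ 3 := by ring
        rw [this, hT9, hT8]
        have h1 : (T : ℝ) ^ 8 * 49 * L ^ 3 ≤ (T : ℝ) ^ 8 * 49 * (T / 1000000) := by gcongr
        have h2 : (T : ℝ) ^ 8 * 49 * (T / 1000000) ≤ (T : ℝ) ^ 8 * T * T * 0.00005 := by
          have h3 : (T : ℝ) ^ 8 * T ≤ (T : ℝ) ^ 8 * T * T := by
            nlinarith [show (0 : ℝ) ≤ (T : ℝ) ^ 8 * T by positivity]
          nlinarith [show (0 : ℝ) ≤ (T : ℝ) ^ 8 * T by positivity]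
        linarith
      have e9 : (((T ^ 4 : ℕ)) : ℝ) + 1 ≤ (T : ℝ) ^ 8 * 2 := by
        push_cast
        have : (T : ℝ) ^ 4 ≤ (T : ℝ) ^ 8 := pow_le_pow_right₀ (by linarith) (by norm_num)
        linarith
      have e10 : L * ((((T ^ 4 : ℕ)) : ℝ) + 1) ≤ (T : ℝ) ^ 10 * 0.00001 := by
        have h1 : L * ((((T ^ 4 : ℕ)) : ℝ) + 1) ≤ L * ((T : ℝ) ^ 8 * 2) := by gcongr
        have h2 : L * ((T : ℝ) ^ 8 * 2) ≤ (T / 1000000) * ((T : ℝ) ^ 8 * 2) := by gcongr
        have h3 : (T / 1000000 : ℝ) * ((T : ℝ) ^ 8 * 2) = (T : ℝ) ^ 9 * 0.000002 := by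
          rw [hT8]; ring
        have h4 : (T : ℝ) ^ 9 ≤ (T : ℝ) ^ 10 := pow_le_pow_right₀ (by linarith) (by norm_num)
        linarith
      have h' : L * ((bad r (T ^ 10)).card : ℝ) ≤ L * (((T : ℝ) ^ 10 / 4 + 5 / 4) / (4 * L)) +
          L * ((T : ℝ) ^ 8 * (49 * L ^ 2)) + L * ((((T ^ 4 : ℕ)) : ℝ) + 1) := by
        rw [← mul_add, ← mul_add]
        apply mul_le_mul_of_nonneg_left _ (by linarith)
        linarith
      rw [e4] at h'
      have e11 : (5 / 16 : ℝ) ≤ (T : ℝ) ^ 10 * 0.00001 := by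
        have : (3 : ℝ) ^ 10 ≤ (T : ℝ) ^ 10 := pow_le_pow_left₀ (by norm_num) hTR 10
        norm_num at this
        linarith
      linarith
    · have h := bad_trivial r (T ^ 10) (by omega)
      have h1 : T ^ 10 / r ≤ T ^ 9 := by
        calc T ^ 10 / r ≤ T ^ 10 / T := Nat.div_le_div_left hrT.le (by omega)
          _ = T ^ 9 := by
            rw [show T ^ 10 = T ^ 9 * T from pow_succ _ _]
            exact Nat.mul_div_cancel _ (by omega)
      have h2 : ((bad r (T ^ 10)).card : ℝ) ≤ (T : ℝ) ^ 9 + 1 := by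
        exact_mod_cast h.trans (Nat.add_le_add_right h1 1)
      have h3 : L * ((bad r (T ^ 10)).card : ℝ) ≤ (T / 1000000) * ((T : ℝ) ^ 9 + 1) := by
        apply mul_le_mul l2 h2 (by positivity) (by positivity)
      have h4 : (T / 1000000 : ℝ) * ((T : ℝ) ^ 9 + 1) ≤ 0.0626 * (T : ℝ) ^ 10 := by
        rw [hT9]
        nlinarith [show (0 : ℝ) ≤ (T : ℝ) ^ 9 * T by positivity]
      linarith
  have hmul : L * (Nat.primeCounting (T ^ 10) : ℝ) ≤
      L * ((good r (T ^ 10)).card : ℝ) + L * ((bad r (T ^ 10)).card : ℝ) + L := by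
    have := mul_le_mul_of_nonneg_left hgb (show 0 ≤ L by linarith)
    linarith
  have hfin : (T : ℝ) ≤ (T : ℝ) ^ 10 := by
    calc (T : ℝ) = (T : ℝ) ^ 1 := (pow_one _).symm
      _ ≤ (T : ℝ) ^ 10 := pow_le_pow_right₀ (by linarith) (by norm_num)
  nlinarith

end Pool.Agent.TH863
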