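import Mathlib
import Pool.Agent.Helper112.LS

/-!
The large sieve for sets which occupy few residue classes modulo many primes.
-/

set_option autoImplicit false

namespace Pool.Agent.TH863

open Finset Pool.Agent.Helper112

/-- sum over a complete residue system -/
lemma sum_ee_range (l : ℕ) (hl : 0 < l) (k : ℤ) :
    ∑ a ∈ range l, ee ((k : ℝ) * a / l) = if (l : ℤ) ∣ k then (l : ℂ) else 0 := by
  have hl0 : (l : ℝ) ≠ 0 := by exact_mod_cast hl.ne'
  split_ifs with h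
  · obtain ⟨c, rfl⟩ := h
    have : ∀ a ∈ range l, ee ((((l : ℤ) * c : ℤ) : ℝ) * a / l) = 1 := by
      intro a _
      have h1 : (((l : ℤ) * c : ℤ) : ℝ) * a / l = ((c * a : ℤ) : ℝ) := by
        push_cast
        field_simp
      rw [h1]
      exact ls_ee_int _
    rw [Finset.sum_congr rfl this]
    simp
  · have h1 : ∀ a ∈ range l, ee ((k : ℝ) * a / l) = ee ((k : ℝ) / l) ^ a := by
      intro a _
      rw [← ls_ee_nat_mul]
      congr 1
      ring
    rw [Finset.sum_congr rfl h1]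
    have hne : ee ((k : ℝ) / l) ≠ 1 := by
      intro hc
      obtain ⟨n, hn⟩ := ls_ee_eq_one hc
      apply h
      refine ⟨n, ?_⟩
      have h2 : (k : ℝ) = l * n := by
        field_simp at hn
        linarith
      exact_mod_cast h2
    have h2 := geom_sum_eq hne l
    rw [h2, ← ls_ee_nat_mul]
    have h3 : (l : ℝ) * ((k : ℝ) / l) = ((k : ℤ) : ℝ) := by field_simp
    rw [h3, ls_ee_int]
    simp

/-- Parseval modulo `l`. -/
lemma parseval (l : ℕ) (hl : 0 < l) (A : Finset ℕ) :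
    ∑ a ∈ range l, ‖∑ n ∈ A, ee ((n : ℝ) * a / l)‖ ^ 2 =
      l * ∑ h ∈ range l, (((A.filter (fun n => n % l = h)).card : ℝ)) ^ 2 := by
  have key : ∀ a : ℕ, ((‖∑ n ∈ A, ee ((n : ℝ) * a / l)‖ ^ 2 : ℝ) : ℂ) =
      ∑ n ∈ A, ∑ m ∈ A, ee ((((n : ℤ) - (m : ℤ) : ℤ) : ℝ) * a / l) := by
    intro a
    rw [← Complex.normSq_eq_norm_sq, ← Complex.mul_conj, map_sum, Finset.sum_mul_sum]
    refine Finset.sum_congr rfl fun n _ => Finset.sum_congr rfl fun m _ => ?_
    rw [ls_conj_ee, ← ls_ee_add]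
    congr 1
    push_cast
    ring
  have h1 : ((∑ a ∈ range l, ‖∑ n ∈ A, ee ((n : ℝ) * a / l)‖ ^ 2 : ℝ) : ℂ) =
      ∑ n ∈ A, ∑ m ∈ A, (if (l : ℤ) ∣ ((n : ℤ) - (m : ℤ)) then (l : ℂ) else 0) := by
    rw [Complex.ofReal_sum, Finset.sum_congr rfl (fun a _ => key a), Finset.sum_comm]
    refine Finset.sum_congr rfl fun n _ => ?_
    rw [Finset.sum_comm]
    refine Finset.sum_congr rfl fun m _ => ?_
    exact sum_ee_range l hl _
  have h2 : ∀ n m : ℕ, (l : ℤ) ∣ ((n : ℤ) - (m : ℤ)) ↔ m % l = n % l := by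
    intro n m
    constructor
    · intro h
      have h3 : (m : ℤ) ≡ n [ZMOD l] := (Int.modEq_iff_dvd).2 (by
        rcases h with ⟨c, hc⟩
        exact ⟨c, by omega⟩)
      exact (Int.natCast_modEq_iff.1 h3)
    · intro h
      have h3 : (m : ℤ) ≡ n [ZMOD l] := Int.natCast_modEq_iff.2 h
      exact (Int.modEq_iff_dvd).1 h3
  have h3 : ((l * ∑ h ∈ range l, (((A.filter (fun n => n % l = h)).card : ℝ)) ^ 2 : ℝ) : ℂ) =
      ∑ n ∈ A, ∑ m ∈ A, (if (l : ℤ) ∣ ((n : ℤ) - (m : ℤ)) then (l : ℂ) else 0) := by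
    have e1 : ∀ n ∈ A, ∑ m ∈ A, (if (l : ℤ) ∣ ((n : ℤ) - (m : ℤ)) then (l : ℂ) else 0) =
        (l : ℂ) * ((A.filter (fun m => m % l = n % l)).card : ℂ) := by
      intro n _
      simp only [h2]
      rw [← Finset.sum_filter, Finset.sum_const, nsmul_eq_mul]
      ring
    rw [Finset.sum_congr rfl e1, ← Finset.mul_sum]
    have e2 : ∑ n ∈ A, ((A.filter (fun m => m % l = n % l)).card : ℂ) =
        ∑ h ∈ range l, ∑ n ∈ A.filter (fun n => n % l = h),
          ((A.filter (fun m => m % l = n % l)).card : ℂ) := by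
      rw [Finset.sum_fiberwise_of_maps_to]
      intro n _
      exact Finset.mem_range.2 (Nat.mod_lt _ hl)
    have e3 : ∀ h ∈ range l, ∑ n ∈ A.filter (fun n => n % l = h),
          ((A.filter (fun m => m % l = n % l)).card : ℂ) =
          ((A.filter (fun n => n % l = h)).card : ℂ) ^ 2 := by
      intro h _
      rw [Finset.sum_congr rfl (g := fun _ => ((A.filter (fun n => n % l = h)).card : ℂ))]
      · rw [Finset.sum_const, nsmul_eq_mul]
        ring
      · intro n hn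
        rw [(Finset.mem_filter.1 hn).2]
    rw [e2, Finset.sum_congr rfl e3]
    push_cast
    ring
  exact_mod_cast h1.trans h3.symm

/-- lower bound for the contribution of the prime `l` -/
lemma prime_part {l : ℕ} (hl : l.Prime) (hl2 : l ≠ 2) (A : Finset ℕ)
    (hA : 2 * ((A.image (fun n => n % l)).card) ≤ l + 1) :
    (1 / 2 : ℝ) * (A.card : ℝ) ^ 2 ≤
      ∑ a ∈ (range l).filter (fun a => a.Coprime l), ‖∑ n ∈ A, ee ((n : ℝ) * a / l)‖ ^ 2 := by
  classical
  have hl0 : 0 < l := hl.pos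
  have hl3 : 3 ≤ l := by
    have := hl.two_le
    omega
  have hsplit : ∑ a ∈ range l, ‖∑ n ∈ A, ee ((n : ℝ) * a / l)‖ ^ 2 =
      (A.card : ℝ) ^ 2 +
      ∑ a ∈ (range l).filter (fun a => a.Coprime l), ‖∑ n ∈ A, ee ((n : ℝ) * a / l)‖ ^ 2 := by
    have h1 : range l = insert 0 ((range l).filter (fun a => a.Coprime l)) := by
      ext a
      simp only [Finset.mem_range, Finset.mem_insert, Finset.mem_filter]
      constructor
      · intro h
        rcases Nat.eq_zero_or_pos a with h0 | h0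
        · exact Or.inl h0
        · exact Or.inr ⟨h, Nat.Coprime.symm ((Nat.Prime.coprime_iff_not_dvd hl).2
          (fun hd => absurd (Nat.le_of_dvd h0 hd) (by omega)))⟩
      · rintro (h | h)
        · omega
        · exact h.1
    have h0 : (0 : ℕ) ∉ (range l).filter (fun a => a.Coprime l) := by
      simp only [Finset.mem_filter, not_and]
      intro _ h
      rw [Nat.coprime_zero_left] at h
      omega
    conv_lhs => rw [h1]
    rw [Finset.sum_insert h0]
    congr 1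
    simp [ls_ee_zero]
  rw [parseval l hl0 A] at hsplit
  -- Cauchy-Schwarz
  set I := A.image (fun n => n % l) with hI
  have hIs : I ⊆ range l := by
    intro h hh
    obtain ⟨n, _, rfl⟩ := Finset.mem_image.1 hh
    exact Finset.mem_range.2 (Nat.mod_lt _ hl0)
  have hsum : (A.card : ℝ) = ∑ h ∈ I, ((A.filter (fun n => n % l = h)).card : ℝ) := by
    have := Finset.card_eq_sum_card_image (fun n => n % l) A
    rw [this]
    push_cast
    rfl
  have hCS : (A.card : ℝ) ^ 2 ≤ I.card * ∑ h ∈ I, (((A.filter (fun n => n % l = h)).card : ℝ)) ^ 2 := by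
    rw [hsum]
    exact sq_sum_le_card_mul_sum_sq
  have hmono : ∑ h ∈ I, (((A.filter (fun n => n % l = h)).card : ℝ)) ^ 2 ≤
      ∑ h ∈ range l, (((A.filter (fun n => n % l = h)).card : ℝ)) ^ 2 :=
    Finset.sum_le_sum_of_subset_of_nonneg hIs (fun _ _ _ => by positivity)
  obtain ⟨T1, hT1⟩ : ∃ t : ℝ, t = ∑ h ∈ I, (((A.filter (fun n => n % l = h)).card : ℝ)) ^ 2 :=
    ⟨_, rfl⟩
  obtain ⟨T2, hT2⟩ : ∃ t : ℝ, t = ∑ h ∈ range l,
    (((A.filter (fun n => n % l = h)).card : ℝ)) ^ 2 := ⟨_, rfl⟩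
  have hT0 : 0 ≤ T1 := by
    rw [hT1]
    exact Finset.sum_nonneg fun _ _ => sq_nonneg _
  rw [← hT2] at hsplit
  rw [← hT1] at hCS
  rw [← hT1, ← hT2] at hmono
  have hIc : (I.card : ℝ) ≤ ((l : ℝ) + 1) / 2 := by
    have : (2 * I.card : ℝ) ≤ l + 1 := by exact_mod_cast hA
    linarith
  have hlR : (3 : ℝ) ≤ l := by exact_mod_cast hl3
  have h1 : (A.card : ℝ) ^ 2 ≤ ((l : ℝ) + 1) / 2 * T2 :=
    hCS.trans (mul_le_mul hIc hmono hT0 (by linarith))
  have h2 : (3 / 2 : ℝ) * (A.card : ℝ) ^ 2 ≤ l * T2 := by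
    have h3 : (3 / 2 : ℝ) * (((l : ℝ) + 1) / 2 * T2) ≤ l * T2 := by
      have h4 : (3 / 2 : ℝ) * (((l : ℝ) + 1) / 2) ≤ l := by linarith
      have h5 := mul_le_mul_of_nonneg_right h4 (hT0.trans hmono)
      linarith
    linarith
  linarith

/-- The large sieve for a set which occupies at most half of the residue classes modulo the primes
of `P`. -/
theorem half_sieve (N F : ℕ) (A P : Finset ℕ) (hA : A ⊆ Icc 1 N)
    (hP : ∀ l ∈ P, l.Prime ∧ l ≠ 2 ∧ l ≤ F)
    (hI : ∀ l ∈ P, 2 * ((A.image (fun n => n % l)).card) ≤ l + 1) :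
    (A.card : ℝ) * P.card ≤ 12 * (N + (F : ℝ) ^ 2) := by
  classical
  rcases Finset.eq_empty_or_nonempty A with rfl | hne
  · simp only [Finset.card_empty, Nat.cast_zero, zero_mul]
    positivity
  have hApos : (0 : ℝ) < A.card := by exact_mod_cast hne.card_pos
  have hLS := additive_large_sieve N F (fun n => if n ∈ A then 1 else 0)
  have e1 : ∀ f a : ℕ, ∑ n ∈ Icc 1 N, (if n ∈ A then (1 : ℂ) else 0) * ee ((n : ℝ) * a / f) =
      ∑ n ∈ A, ee ((n : ℝ) * a / f) := by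
    intro f a
    simp only [ite_mul, one_mul, zero_mul]
    rw [← Finset.sum_filter]
    congr 1
    ext n
    simp only [Finset.mem_filter]
    exact ⟨fun h => h.2, fun h => ⟨hA h, h⟩⟩
  have e2 : ∑ n ∈ Icc 1 N, ‖(if n ∈ A then (1 : ℂ) else 0)‖ ^ 2 = A.card := by
    have : ∀ n ∈ Icc 1 N, ‖(if n ∈ A then (1 : ℂ) else 0)‖ ^ 2 = if n ∈ A then (1 : ℝ) else 0 := by
      intro n _
      split_ifs <;> simp
    rw [Finset.sum_congr rfl this, ← Finset.sum_filter, Finset.sum_const, nsmul_eq_mul, mul_one]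
    congr 2
    ext n
    simp only [Finset.mem_filter]
    exact ⟨fun h => h.2, fun h => ⟨hA h, h⟩⟩
  rw [e2] at hLS
  simp only [e1] at hLS
  have h1 : ∑ l ∈ P, (1 / 2 : ℝ) * (A.card : ℝ) ^ 2 ≤
      ∑ f ∈ Icc 1 F, ∑ a ∈ (range f).filter (fun a => a.Coprime f),
        ‖∑ n ∈ A, ee ((n : ℝ) * a / f)‖ ^ 2 := by
    calc ∑ l ∈ P, (1 / 2 : ℝ) * (A.card : ℝ) ^ 2 ≤
        ∑ l ∈ P, ∑ a ∈ (range l).filter (fun a => a.Coprime l),
          ‖∑ n ∈ A, ee ((n : ℝ) * a / l)‖ ^ 2 :=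
          Finset.sum_le_sum fun l hl => prime_part (hP l hl).1 (hP l hl).2.1 A (hI l hl)
      _ ≤ _ := by
          refine Finset.sum_le_sum_of_subset_of_nonneg ?_ (fun _ _ _ =>
            Finset.sum_nonneg fun _ _ => by positivity)
          intro l hl
          exact Finset.mem_Icc.2 ⟨(hP l hl).1.one_le, (hP l hl).2.2⟩
  rw [Finset.sum_const, nsmul_eq_mul] at h1
  have h2 : (A.card : ℝ) * ((A.card : ℝ) * P.card) ≤ (A.card : ℝ) * (12 * (N + (F : ℝ) ^ 2)) := by
    nlinarith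
  exact le_of_mul_le_mul_left h2 hApos

end Pool.Agent.TH863
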