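import Mathlib
import Pool.Agent.TH863.LS
import Pool.Agent.TH863.GoodPrimes
import Pool.Agent.TH863.Classes

/-!
For given `d` there are `O(√H log H)` numbers `n ≤ H` for which `p ^ e * n ^ r` is a value of
`x ↦ GG p x (x - d)`.
-/

set_option autoImplicit false

namespace Pool.Agent.TH863

open Finset Real

lemma sqrt_le_pow (H T : ℕ) (h : H < (T + 1) ^ 20) (hT : 1 ≤ T) :
    √(H : ℝ) ≤ 1024 * (T : ℝ) ^ 10 := by
  have hTR : (1 : ℝ) ≤ T := by exact_mod_cast hT
  have h0 : (H : ℝ) ≤ ((T : ℝ) + 1) ^ 20 := by exact_mod_cast h.le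
  have h1 : ((T : ℝ) + 1) ^ 20 ≤ (2 * (T : ℝ)) ^ 20 :=
    pow_le_pow_left₀ (by linarith) (by linarith) 20
  have h2 : (2 * (T : ℝ)) ^ 20 = (1024 * (T : ℝ) ^ 10) ^ 2 := by
    rw [mul_pow, mul_pow, ← pow_mul]
    norm_num
  have h3 : (0 : ℝ) ≤ 1024 * (T : ℝ) ^ 10 :=
    mul_nonneg (by norm_num) (pow_nonneg (Nat.cast_nonneg _) _)
  rw [h2] at h1
  exact Real.sqrt_le_iff.2 ⟨h3, h0.trans h1⟩

lemma num_core {a P H L t : ℝ} (ha : 0 ≤ a) (hL : 1 ≤ L) (h24 : a * P ≤ 24 * H)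
    (hP : t / (2000 * L) ≤ P) : a * t ≤ 48000 * H * L := by
  have hL0 : 0 < 2000 * L := by linarith
  have h1 : a * (t / (2000 * L)) ≤ a * P := mul_le_mul_of_nonneg_left hP ha
  have h2 : a * (t / (2000 * L)) * (2000 * L) = a * t := by
    field_simp
  have h3 : a * (t / (2000 * L)) * (2000 * L) ≤ 24 * H * (2000 * L) :=
    mul_le_mul_of_nonneg_right (h1.trans h24) hL0.le
  rw [h2] at h3
  linarith

lemma num_P {g P L t : ℝ} (hL : 1 ≤ L) (hg : t / 1000 ≤ L * g) (hgP : g ≤ P + 1)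
    (hbig : 2000 * L ≤ t) : t / (2000 * L) ≤ P := by
  have hL0 : 0 < 2000 * L := by linarith
  rw [div_le_iff₀ hL0]
  have h2 : L * g ≤ L * (P + 1) := mul_le_mul_of_nonneg_left hgP (by linarith)
  have h3 : L * (P + 1) = L * P + L := by ring
  have h4 : P * (2000 * L) = 2000 * (L * P) := by ring
  rw [h4]
  linarith

lemma final_step {a H L s t : ℝ} (ha : 0 ≤ a) (hs : 1 ≤ s)
    (hss : s * s = H) (hst : s ≤ 1024 * t) (h : a * t ≤ 48000 * H * L) :
    a ≤ 49152000 * s * L := by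
  have h1 : a * s ≤ 49152000 * s * L * s := by
    calc a * s ≤ a * (1024 * t) := mul_le_mul_of_nonneg_left hst ha
      _ = 1024 * (a * t) := by ring
      _ ≤ 1024 * (48000 * H * L) := by linarith
      _ = 49152000 * L * H := by ring
      _ = 49152000 * L * (s * s) := by rw [hss]
      _ = 49152000 * s * L * s := by ring
  exact le_of_mul_le_mul_right h1 (by linarith)

set_option maxHeartbeats 1000000 in
theorem sieve_count : ∃ C : ℝ, 0 < C ∧ ∀ H : ℕ, 1 ≤ H → ∀ p : ℕ, p.Prime → p ≠ 2 →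
    ∀ r : ℕ, r.Prime → 5 ≤ r → ∀ e : ℕ, ∀ d : ℤ, ∀ A : Finset ℕ, A ⊆ Icc 1 H →
    (∀ n ∈ A, ∃ x : ℤ, GG p x (x - d) = (p : ℤ) ^ e * (n : ℤ) ^ r) →
    (A.card : ℝ) ≤ C * √H * Real.log (H + 2) := by
  classical
  obtain ⟨T₀, hT₀, hgood⟩ := good_primes
  refine ⟨max (2 * (T₀ : ℝ) ^ 20) 49152000, by positivity, fun H hH p hp hp2 r hr hr5 e d A hAs hA => ?_⟩
  set C : ℝ := max (2 * (T₀ : ℝ) ^ 20) 49152000 with hC
  have hHR : (1 : ℝ) ≤ H := by exact_mod_cast hH
  have hsq1 : 1 ≤ √(H : ℝ) := by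
    rw [Real.one_le_sqrt]
    exact hHR
  have hlog1 : 1 / 2 ≤ Real.log ((H : ℝ) + 2) := by
    have h1 : Real.log 2 ≤ Real.log ((H : ℝ) + 2) := Real.log_le_log (by norm_num) (by linarith)
    have := Real.log_two_gt_d9
    linarith
  by_cases hsmall : H < T₀ ^ 20
  · have h1 : (A.card : ℝ) ≤ (T₀ : ℝ) ^ 20 := by
      have h2 := Finset.card_le_card hAs
      rw [Nat.card_Icc] at h2
      have : A.card ≤ T₀ ^ 20 := by omega
      exact_mod_cast this
    have h2 : 2 * (T₀ : ℝ) ^ 20 ≤ C := le_max_left _ _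
    have h3 : (0 : ℝ) ≤ (T₀ : ℝ) ^ 20 := by positivity
    calc (A.card : ℝ) ≤ (2 * (T₀ : ℝ) ^ 20) * 1 * (1 / 2) := by linarith
      _ ≤ C * √(H : ℝ) * Real.log ((H : ℝ) + 2) := by
        apply mul_le_mul _ hlog1 (by norm_num) (by positivity)
        exact mul_le_mul h2 hsq1 (by norm_num) (by positivity)
  · push Not at hsmall
    -- the largest `T` with `T ^ 20 ≤ H`
    obtain ⟨T, hT1, hT2⟩ : ∃ T : ℕ, T ^ 20 ≤ H ∧ H < (T + 1) ^ 20 := by
      refine ⟨Nat.findGreatest (fun T => T ^ 20 ≤ H) H, ?_, ?_⟩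
      · exact Nat.findGreatest_spec (P := fun T => T ^ 20 ≤ H) (m := 0) (Nat.zero_le _) (by simp)
      · by_contra hc
        push Not at hc
        have h1 : Nat.findGreatest (fun T => T ^ 20 ≤ H) H + 1 ≤ H := by
          calc Nat.findGreatest (fun T => T ^ 20 ≤ H) H + 1 ≤
              (Nat.findGreatest (fun T => T ^ 20 ≤ H) H + 1) ^ 20 := Nat.le_self_pow (by norm_num) _
            _ ≤ H := hc
        have h2 := Nat.le_findGreatest (P := fun T => T ^ 20 ≤ H) h1 hc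
        omega
    have hTT : T₀ ≤ T := by
      by_contra hc
      push Not at hc
      have h1 : (T + 1) ^ 20 ≤ T₀ ^ 20 := Nat.pow_le_pow_left hc 20
      omega
    have hT3 : 3 ≤ T := hT₀.trans hTT
    have hTR : (3 : ℝ) ≤ T := by exact_mod_cast hT3
    have hg := hgood T hTT r hr hr5
    obtain ⟨L, hL⟩ : ∃ L : ℝ, L = Real.log T := ⟨_, rfl⟩
    rw [← hL] at hg
    have hL1 : 1 ≤ L := by
      rw [hL, Real.le_log_iff_exp_le (by linarith)]
      have := Real.exp_one_lt_d9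
      linarith
    have hPcard : (good r (T ^ 10)).card ≤ ((good r (T ^ 10)).erase p).card + 1 := by
      have := Finset.pred_card_le_card_erase (s := good r (T ^ 10)) (a := p)
      omega
    obtain ⟨P, hP⟩ : ∃ P : Finset ℕ, P = (good r (T ^ 10)).erase p := ⟨_, rfl⟩
    rw [← hP] at hPcard
    have hPprop : ∀ l ∈ P, l.Prime ∧ l ≠ 2 ∧ l ≤ T ^ 10 := by
      intro l hl
      rw [hP] at hl
      have h1 := (Finset.mem_erase.1 hl).2
      simp only [good, Finset.mem_filter, Finset.mem_Icc] at h1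
      exact ⟨h1.2.1, by omega, h1.1.2⟩
    have hPI : ∀ l ∈ P, 2 * ((A.image (fun n => n % l)).card) ≤ l + 1 := by
      intro l hl
      rw [hP] at hl
      obtain ⟨hlp, hlg⟩ := Finset.mem_erase.1 hl
      have h1 := hlg
      simp only [good, Finset.mem_filter, Finset.mem_Icc] at h1
      refine classes h1.2.1 (by omega) (hp.odd_of_ne_two hp2) hr.one_le
        ((Nat.Prime.coprime_iff_not_dvd hr).2 h1.2.2) ?_ d A hA
      intro hd
      exact hlp ((Nat.prime_dvd_prime_iff_eq h1.2.1 hp).1 (h1.2.1.dvd_of_dvd_pow hd))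
    have hLS := half_sieve H (T ^ 10) A P hAs hPprop hPI
    have hT20 : (((T ^ 10 : ℕ)) : ℝ) ^ 2 ≤ H := by
      have : (T ^ 10) ^ 2 ≤ H := by
        rw [← pow_mul]
        exact hT1
      exact_mod_cast this
    have h24 : (A.card : ℝ) * P.card ≤ 24 * H := by linarith
    -- lower bound for `P.card`
    have hT10big : 2000 * L ≤ (T : ℝ) ^ 10 := by
      have h1 : L ≤ T := by
        have := Real.log_le_sub_one_of_pos (show (0 : ℝ) < T by linarith)
        linarith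
      have h2 : (3 : ℝ) ^ 9 ≤ (T : ℝ) ^ 9 := pow_le_pow_left₀ (by norm_num) hTR 9
      have h3 : (T : ℝ) ^ 10 = T ^ 9 * T := pow_succ _ _
      norm_num at h2
      rw [h3]
      calc 2000 * L ≤ 2000 * T := by linarith
        _ ≤ (T : ℝ) ^ 9 * T := mul_le_mul_of_nonneg_right (by linarith) (by linarith)
    have hPc' : ((good r (T ^ 10)).card : ℝ) ≤ P.card + 1 := by exact_mod_cast hPcard
    have hPlow : (T : ℝ) ^ 10 / (2000 * L) ≤ P.card := num_P hL1 hg hPc' hT10big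
    have hA2 : (A.card : ℝ) * (T : ℝ) ^ 10 ≤ 48000 * H * L :=
      num_core (Nat.cast_nonneg _) hL1 h24 hPlow
    -- `√H ≤ 1024 T ^ 10`
    have hsqH : √(H : ℝ) ≤ 1024 * (T : ℝ) ^ 10 := sqrt_le_pow H T hT2 (by omega)
    have hLlog : L ≤ Real.log ((H : ℝ) + 2) := by
      rw [hL]
      apply Real.log_le_log (by linarith)
      have h1 : T ≤ H := (Nat.le_self_pow (by norm_num) T).trans hT1
      have : (T : ℝ) ≤ H := by exact_mod_cast h1
      linarith
    have hsqsq : √(H : ℝ) * √(H : ℝ) = H := Real.mul_self_sqrt (by linarith)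
    have hfin : (A.card : ℝ) ≤ 49152000 * √(H : ℝ) * L :=
      final_step (Nat.cast_nonneg _) hsq1 hsqsq hsqH hA2
    calc (A.card : ℝ) ≤ 49152000 * √(H : ℝ) * L := hfin
      _ ≤ C * √(H : ℝ) * Real.log ((H : ℝ) + 2) := by
        apply mul_le_mul _ hLlog (by linarith) (by positivity)
        apply mul_le_mul_of_nonneg_right (le_max_right _ _) (by linarith)

end Pool.Agent.TH863
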