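import Mathlib
import Pool.Agent.TH863.Alg

/-!
Inequalities for the factors in `x ^ p + y ^ p = z ^ r`.
-/

set_option autoImplicit false

namespace Pool.Agent.TH863

open Finset

/-- data attached to a solution of `x ^ p + y ^ p = z ^ r` -/
structure Dat (N p r e b1 b2 : ℕ) : Prop where
  he : e ≤ 1
  h1 : 1 ≤ b1
  h2 : 1 ≤ b2
  hN : b1 * b2 ≤ N
  /-- the closeness of `b2` to `b1 ^ (p - 1)` -/
  up : b1 ^ (r * (p - 1)) ≤ (2 * p) ^ p * b2 ^ r
  low : b2 < b1 ^ (p - 1)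
  /-- the bound for `p` -/
  hp : 3 ^ (p - 1) ≤ 2 ^ (p - 1) * N ^ 2
  ex : ∃ x : ℕ, x ≤ b1 ^ r / p ^ e ∧
    GG p x (x - ((b1 ^ r / p ^ e : ℕ) : ℤ)) = (p : ℤ) ^ e * (b2 : ℤ) ^ r

lemma dat_of_solution {N p r x y z : ℕ} (hp : p.Prime) (hp2 : p ≠ 2) (hr : 2 ≤ r)
    (hx : 0 < x) (hy : 0 < y) (hxy : Nat.Coprime x y) (hz : z ≤ N) (h : x ^ p + y ^ p = z ^ r) :
    ∃ e b1 b2 : ℕ, z = b1 * b2 ∧ Dat N p r e b1 b2 := by
  have hodd : Odd p := hp.odd_of_ne_two hp2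
  have hp3 : 3 ≤ p := by
    have := hp.two_le
    omega
  have hz0 : 0 < z := by
    rcases Nat.eq_zero_or_pos z with h0 | h0
    · rw [h0, zero_pow (by omega)] at h
      have : 0 < x ^ p := by positivity
      omega
    · exact h0
  have hco : IsCoprime (x : ℤ) (-(y : ℤ)) := (Nat.isCoprime_iff_coprime.2 hxy).neg_right
  have hd : (0 : ℤ) < (x : ℤ) - (-(y : ℤ)) := by
    have : (0 : ℤ) < x := by exact_mod_cast hx
    have : (0 : ℤ) < y := by exact_mod_cast hy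
    omega
  have heq : (x : ℤ) ^ p - (-(y : ℤ)) ^ p = (z : ℤ) ^ r := by
    rw [hodd.neg_pow, sub_neg_eq_add]
    exact_mod_cast h
  obtain ⟨b1, b2, e, he, hb, _, hb1, hb2, hD, hG, he1, _, _, _⟩ :=
    split hp hp2 hco hz0 (by omega) hd heq
  have hD' : p ^ e * (x + y) = b1 ^ r := by
    have : (p : ℤ) ^ e * ((x : ℤ) + y) = (b1 : ℤ) ^ r := by
      rw [← hD]; ring
    exact_mod_cast this
  have hpe : 0 < p ^ e := Nat.pow_pos hp.pos
  have hdiv : b1 ^ r / p ^ e = x + y := by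
    rw [← hD']
    exact Nat.mul_div_cancel_left _ hpe
  -- the second factor as a natural number
  obtain ⟨G, hGe⟩ : ∃ G : ℕ, G = p ^ e * b2 ^ r := ⟨_, rfl⟩
  have hGI : GG p x (-(y : ℤ)) = (G : ℤ) := by
    rw [hG, hGe]
    push_cast
    ring
  have hmul : (x + y) * G = x ^ p + y ^ p := by
    have h1 := GG_mul p (x : ℤ) (-(y : ℤ))
    rw [hGI, hodd.neg_pow] at h1
    have h2 : ((x : ℤ) + y) * G = (x : ℤ) ^ p + (y : ℤ) ^ p := by linarith
    exact_mod_cast h2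
  have hxy0 : 0 < x + y := by omega
  -- upper bound
  have hGup : (x + y) ^ (p - 1) ≤ 2 ^ (p - 1) * G := by
    have h1 : (x + y) ^ p ≤ 2 ^ (p - 1) * (x ^ p + y ^ p) := add_pow_le (Nat.zero_le _) (Nat.zero_le _) p
    rw [← hmul] at h1
    have h2 : (x + y) ^ p = (x + y) * (x + y) ^ (p - 1) := by
      rw [← pow_succ']
      congr 1
      omega
    rw [h2] at h1
    have h3 : (x + y) * (x + y) ^ (p - 1) ≤ (x + y) * (2 ^ (p - 1) * G) := by
      calc (x + y) * (x + y) ^ (p - 1) ≤ 2 ^ (p - 1) * ((x + y) * G) := h1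
        _ = (x + y) * (2 ^ (p - 1) * G) := by ring
    exact Nat.le_of_mul_le_mul_left h3 hxy0
  have hGlow : G < (x + y) ^ (p - 1) := by
    have h1 : x ^ p + y ^ p < (x + y) ^ p := by
      obtain ⟨k, rfl⟩ : ∃ k, p = k + 2 := ⟨p - 2, by omega⟩
      have e1 : (x + y) ^ (k + 2) = x * (x + y) ^ (k + 1) + y * (x + y) ^ (k + 1) := by ring
      have e2 : x ^ (k + 2) = x * x ^ (k + 1) := by ring
      have e3 : y ^ (k + 2) = y * y ^ (k + 1) := by ring
      have l1 : x ^ (k + 1) < (x + y) ^ (k + 1) := Nat.pow_lt_pow_left (by omega) (by omega)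
      have l2 : y ^ (k + 1) < (x + y) ^ (k + 1) := Nat.pow_lt_pow_left (by omega) (by omega)
      have l3 := Nat.mul_lt_mul_of_pos_left l1 hx
      have l4 := Nat.mul_lt_mul_of_pos_left l2 hy
      rw [e1, e2, e3]
      omega
    have h2 : (x + y) ^ p = (x + y) * (x + y) ^ (p - 1) := by
      rw [← pow_succ']
      congr 1
      omega
    rw [← hmul, h2] at h1
    exact Nat.lt_of_mul_lt_mul_left h1
  refine ⟨e, b1, b2, hb, ⟨he, hb1, hb2, hb ▸ hz, ?_, ?_, ?_, ?_⟩⟩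
  · -- closeness
    have h1 : b1 ^ (r * (p - 1)) = p ^ (e * (p - 1)) * (x + y) ^ (p - 1) := by
      rw [pow_mul, ← hD', mul_pow, ← pow_mul]
    rw [h1]
    calc p ^ (e * (p - 1)) * (x + y) ^ (p - 1) ≤ p ^ (e * (p - 1)) * (2 ^ (p - 1) * G) :=
          Nat.mul_le_mul_left _ hGup
      _ = (2 ^ (p - 1) * (p ^ (e * (p - 1)) * p ^ e)) * b2 ^ r := by rw [hGe]; ring
      _ ≤ (2 * p) ^ p * b2 ^ r := by
        apply Nat.mul_le_mul_right
        rw [mul_pow]
        apply Nat.mul_le_mul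
        · exact Nat.pow_le_pow_right (by norm_num) (by omega)
        · rw [← pow_add]
          apply Nat.pow_le_pow_right hp.pos
          have : e * (p - 1) + e = e * p := by
            obtain ⟨k, rfl⟩ : ∃ k, p = k + 1 := ⟨p - 1, by omega⟩
            rw [Nat.add_sub_cancel]
            ring
          rw [this]
          calc e * p ≤ 1 * p := Nat.mul_le_mul_right _ he
            _ = p := one_mul _
  · -- `b2 < b1 ^ (p - 1)`
    have h1 : b2 ^ r < (b1 ^ (p - 1)) ^ r := by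
      have h2 : (b1 ^ (p - 1)) ^ r = p ^ (e * (p - 1)) * (x + y) ^ (p - 1) := by
        rw [← pow_mul, mul_comm (p - 1) r, pow_mul, ← hD', mul_pow, ← pow_mul]
      rw [h2]
      have h3 : b2 ^ r ≤ G := by
        rw [hGe]
        exact Nat.le_mul_of_pos_left _ hpe
      have h4 : 1 ≤ p ^ (e * (p - 1)) := Nat.one_le_pow _ _ hp.pos
      calc b2 ^ r ≤ G := h3
        _ < (x + y) ^ (p - 1) := hGlow
        _ = 1 * (x + y) ^ (p - 1) := (one_mul _).symm
        _ ≤ p ^ (e * (p - 1)) * (x + y) ^ (p - 1) := Nat.mul_le_mul_right _ h4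
    exact lt_of_pow_lt_pow_left₀ r (Nat.zero_le _) h1
  · -- bound for `p`
    -- `3 ^ (r - 1) ≤ 2 ^ (r - 2) * (x + y)`
    have hxyr : 2 * 3 ^ (r - 1) ≤ 2 ^ (r - 1) * (x + y) := by
      obtain ⟨k, rfl⟩ : ∃ k, r = k + 2 := ⟨r - 2, by omega⟩
      have e1 : k + 2 - 1 = k + 1 := by omega
      rw [e1]
      rcases Nat.lt_or_ge e 1 with he0 | he0
      · have e0 : e = 0 := by omega
        rw [e0, pow_zero, one_mul] at hD'
        have hb12 : 2 ≤ b1 := by
          by_contra hc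
          have : b1 = 1 := by omega
          rw [this, one_pow] at hD'
          omega
        have h2 : 2 ^ (k + 2) ≤ x + y := by
          rw [hD']
          exact Nat.pow_le_pow_left hb12 _
        have h3 : 3 ^ (k + 1) ≤ 4 ^ (k + 1) := Nat.pow_le_pow_left (by norm_num) _
        have h4 : (4 : ℕ) ^ (k + 1) = 2 ^ (k + 1) * 2 ^ (k + 1) := by
          rw [← mul_pow]; norm_num
        calc 2 * 3 ^ (k + 1) ≤ 2 * 4 ^ (k + 1) := Nat.mul_le_mul_left _ h3
          _ = 2 ^ (k + 1) * 2 ^ (k + 2) := by rw [h4]; ring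
          _ ≤ 2 ^ (k + 1) * (x + y) := Nat.mul_le_mul_left _ h2
      · have e0 : e = 1 := by omega
        rw [e0, pow_one] at hD'
        have hb1p : p ≤ b1 := Nat.le_of_dvd hb1 (he1 e0)
        have h2 : p * p ^ (k + 1) ≤ p * (x + y) := by
          rw [hD', ← pow_succ']
          exact Nat.pow_le_pow_left hb1p _
        have h3 : p ^ (k + 1) ≤ x + y := Nat.le_of_mul_le_mul_left h2 hp.pos
        have h4 : 3 ^ (k + 1) ≤ p ^ (k + 1) := Nat.pow_le_pow_left hp3 _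
        have h5 : 2 ≤ 2 ^ (k + 1) := by
          rw [pow_succ]
          have : 1 ≤ 2 ^ k := Nat.one_le_two_pow
          omega
        calc 2 * 3 ^ (k + 1) ≤ 2 ^ (k + 1) * 3 ^ (k + 1) := Nat.mul_le_mul_right _ h5
          _ ≤ 2 ^ (k + 1) * (x + y) := Nat.mul_le_mul_left _ (h4.trans h3)
    -- raise to the power `p - 1`
    have h1 : (3 ^ (p - 1)) ^ (r - 1) ≤ (2 ^ (p - 1)) ^ (r - 1) * z ^ r := by
      have h2 : (2 * 3 ^ (r - 1)) ^ (p - 1) ≤ (2 ^ (r - 1) * (x + y)) ^ (p - 1) :=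
        Nat.pow_le_pow_left hxyr _
      rw [mul_pow, mul_pow] at h2
      have h3 : 2 ^ (p - 1) * (3 ^ (r - 1)) ^ (p - 1) ≤
          2 ^ (p - 1) * ((2 ^ (r - 1)) ^ (p - 1) * G) := by
        calc 2 ^ (p - 1) * (3 ^ (r - 1)) ^ (p - 1) ≤ (2 ^ (r - 1)) ^ (p - 1) * (x + y) ^ (p - 1) := h2
          _ ≤ (2 ^ (r - 1)) ^ (p - 1) * (2 ^ (p - 1) * G) := Nat.mul_le_mul_left _ hGup
          _ = _ := by ring
      have h4 := Nat.le_of_mul_le_mul_left h3 (by positivity : 0 < 2 ^ (p - 1))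
      have h5 : G ≤ z ^ r := by
        rw [← h, ← hmul]
        exact Nat.le_mul_of_pos_left _ hxy0
      calc (3 ^ (p - 1)) ^ (r - 1) = (3 ^ (r - 1)) ^ (p - 1) := by rw [← pow_mul, ← pow_mul, mul_comm]
        _ ≤ (2 ^ (r - 1)) ^ (p - 1) * G := h4
        _ ≤ (2 ^ (r - 1)) ^ (p - 1) * z ^ r := Nat.mul_le_mul_left _ h5
        _ = (2 ^ (p - 1)) ^ (r - 1) * z ^ r := by rw [← pow_mul, ← pow_mul, mul_comm (r - 1)]
    have h2 : 3 ^ (p - 1) ≤ 2 ^ (p - 1) * z ^ 2 := by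
      by_contra hc
      push Not at hc
      have h3 : (2 ^ (p - 1) * z ^ 2) ^ (r - 1) < (3 ^ (p - 1)) ^ (r - 1) :=
        Nat.pow_lt_pow_left hc (by omega)
      rw [mul_pow, ← pow_mul z] at h3
      have h4 : z ^ r ≤ z ^ (2 * (r - 1)) := Nat.pow_le_pow_right hz0 (by omega)
      have h5 := Nat.mul_le_mul_left ((2 ^ (p - 1)) ^ (r - 1)) h4
      omega
    calc 3 ^ (p - 1) ≤ 2 ^ (p - 1) * z ^ 2 := h2
      _ ≤ 2 ^ (p - 1) * N ^ 2 := Nat.mul_le_mul_left _ (Nat.pow_le_pow_left hz 2)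
  · refine ⟨x, ?_, ?_⟩
    · rw [hdiv]; omega
    · rw [hdiv]
      have : (x : ℤ) - ((x + y : ℕ) : ℤ) = -(y : ℤ) := by push_cast; ring
      rw [this, hG]

end Pool.Agent.TH863
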