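import Mathlib
import Pool.Agent.TH863.SieveCount
import Pool.Agent.TH863.Sizes

/-!
Counting the numbers `z ≤ N` with `z ^ r = x ^ p + y ^ p`.
-/

set_option autoImplicit false

namespace Pool.Agent.TH863

open Finset Real

/-! ### consequences of the data -/

lemma Dat.b1_pow {N p r e b1 b2 : ℕ} (D : Dat N p r e b1 b2) (hp : 1 ≤ p) (hr : 1 ≤ r) :
    b1 ^ p ≤ (2 * p) ^ p * N := by
  have h1 : (b1 ^ p) ^ r ≤ ((2 * p) ^ p * N) ^ r := by
    calc (b1 ^ p) ^ r = b1 ^ (r * (p - 1)) * b1 ^ r := by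
          rw [← pow_mul, ← pow_add]
          congr 1
          obtain ⟨k, rfl⟩ : ∃ k, p = k + 1 := ⟨p - 1, by omega⟩
          rw [Nat.add_sub_cancel]
          ring
      _ ≤ (2 * p) ^ p * b2 ^ r * b1 ^ r := Nat.mul_le_mul_right _ D.up
      _ = (2 * p) ^ p * (b1 * b2) ^ r := by rw [mul_pow]; ring
      _ ≤ (2 * p) ^ p * N ^ r := Nat.mul_le_mul_left _ (Nat.pow_le_pow_left D.hN r)
      _ ≤ ((2 * p) ^ p) ^ r * N ^ r := by
          apply Nat.mul_le_mul_right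
          exact Nat.le_self_pow (by omega) _
      _ = ((2 * p) ^ p * N) ^ r := (mul_pow _ _ _).symm
  exact le_of_pow_le_pow_left₀ (by omega) (Nat.zero_le _) h1

lemma Dat.b1_le {N p r e b1 b2 k : ℕ} (D : Dat N p r e b1 b2) (hk : 1 ≤ k) (hkp : k ≤ p)
    (hr : 1 ≤ r) (hN : 1 ≤ N) : (b1 : ℝ) ≤ 2 * p * (N : ℝ) ^ (1 / (k : ℝ)) := by
  have hp : 1 ≤ p := hk.trans hkp
  have hkR : (0 : ℝ) < k := by exact_mod_cast hk
  have hpR : (0 : ℝ) < 2 * p := by
    have : (1 : ℝ) ≤ p := by exact_mod_cast hp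
    linarith
  have hNR : (1 : ℝ) ≤ N := by exact_mod_cast hN
  have h1 : (b1 : ℝ) ^ p ≤ (2 * (p : ℝ)) ^ p * N := by exact_mod_cast D.b1_pow hp hr
  have h2 : ((b1 : ℝ) / (2 * p)) ^ p ≤ N := by
    rw [div_pow, div_le_iff₀ (by positivity)]
    linarith
  have h3 : ((b1 : ℝ) / (2 * p)) ^ k ≤ N := by
    rcases le_or_gt ((b1 : ℝ) / (2 * p)) 1 with h | h
    · exact (pow_le_one₀ (by positivity) h).trans hNR
    · exact (pow_le_pow_right₀ h.le hkp).trans h2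
  have h4 : (b1 : ℝ) / (2 * p) ≤ (N : ℝ) ^ (1 / (k : ℝ)) := by
    have h5 : (((b1 : ℝ) / (2 * p)) ^ k) ^ (1 / (k : ℝ)) = (b1 : ℝ) / (2 * p) := by
      rw [← Real.rpow_natCast, ← Real.rpow_mul (by positivity), mul_one_div_cancel hkR.ne',
        Real.rpow_one]
    rw [← h5]
    exact Real.rpow_le_rpow (by positivity) h3 (by positivity)
  rw [div_le_iff₀ hpR] at h4
  linarith

lemma Dat.p_le {N p r e b1 b2 : ℕ} (D : Dat N p r e b1 b2) (hp : 1 ≤ p) (hN : 1 ≤ N) :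
    (p : ℝ) ≤ 7 * Real.log (N + 2) := by
  have hNR : (1 : ℝ) ≤ N := by exact_mod_cast hN
  have h1 : (3 : ℝ) ^ (p - 1) ≤ 2 ^ (p - 1) * (N : ℝ) ^ 2 := by exact_mod_cast D.hp
  have h2 := Real.log_le_log (by positivity) h1
  rw [Real.log_mul (by positivity) (by positivity), Real.log_pow, Real.log_pow, Real.log_pow] at h2
  push_cast [Nat.cast_sub hp] at h2
  have l2 := Real.log_two_lt_d9
  have l3 : (1.09 : ℝ) ≤ Real.log 3 := by
    rw [Real.le_log_iff_exp_le (by norm_num)]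
    have h3 : Real.exp 1.09 ≤ 3 := by
      have e1 : Real.exp 1 < 2.7182818286 := Real.exp_one_lt_d9
      have e2 : Real.exp 0.09 ≤ 1.1 := by
        have h := Real.exp_bound_div_one_sub_of_interval' (x := 0.09) (by norm_num) (by norm_num)
        refine h.le.trans ?_
        norm_num
      have e3 : Real.exp 1.09 = Real.exp 1 * Real.exp 0.09 := by
        rw [← Real.exp_add]
        norm_num
      rw [e3]
      have e4 := Real.exp_pos 1
      have e5 := Real.exp_pos 0.09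
      nlinarith
    exact h3
  have lN : Real.log N ≤ Real.log ((N : ℝ) + 2) := Real.log_le_log (by linarith) (by linarith)
  have lN1 : 1 ≤ Real.log ((N : ℝ) + 2) := by
    rw [Real.le_log_iff_exp_le (by linarith)]
    have := Real.exp_one_lt_d9
    linarith
  have hpR : (1 : ℝ) ≤ p := by exact_mod_cast hp
  have h3 : ((p : ℝ) - 1) * 0.39 ≤ 2 * Real.log N := by nlinarith
  linarith

/-- for `r ≥ R` the factor `b2` is close to `b1 ^ (p - 1)` -/
lemma Dat.close {N p r e b1 b2 : ℕ} (D : Dat N p r e b1 b2) (hp : 1 ≤ p) {R : ℝ} (hR : 0 < R)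
    (hrR : R ≤ r) : (b1 : ℝ) ^ (p - 1) * (1 - p * Real.log (2 * p) / R) ≤ b2 := by
  have hb1 : (1 : ℝ) ≤ b1 := by exact_mod_cast D.h1
  have hb2 : (1 : ℝ) ≤ b2 := by exact_mod_cast D.h2
  have hpR : (1 : ℝ) ≤ p := by exact_mod_cast hp
  have hr0 : (0 : ℝ) < r := by linarith
  have h1 : (b1 : ℝ) ^ (r * (p - 1)) ≤ (2 * (p : ℝ)) ^ p * (b2 : ℝ) ^ r := by exact_mod_cast D.up
  have h2 := Real.log_le_log (by positivity) h1
  rw [Real.log_mul (by positivity) (by positivity), Real.log_pow, Real.log_pow, Real.log_pow] at h2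
  have h3 : Real.log ((b1 : ℝ) ^ (p - 1)) ≤ p * Real.log (2 * p) / R + Real.log b2 := by
    rw [Real.log_pow]
    have h4 : (r : ℝ) * (((p - 1 : ℕ) : ℝ) * Real.log b1) ≤
        r * (p * Real.log (2 * p) / r + Real.log b2) := by
      rw [mul_add, mul_div_cancel₀ _ hr0.ne']
      push_cast at h2 ⊢
      linarith
    have h5 := le_of_mul_le_mul_left h4 hr0
    have h6 : (p : ℝ) * Real.log (2 * p) / r ≤ p * Real.log (2 * p) / R := by
      apply div_le_div_of_nonneg_left _ hR hrR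
      have : 0 ≤ Real.log (2 * (p : ℝ)) := Real.log_nonneg (by linarith)
      positivity
    linarith
  obtain ⟨μ, hμ⟩ : ∃ μ : ℝ, μ = p * Real.log (2 * p) / R := ⟨_, rfl⟩
  rw [← hμ] at h3 ⊢
  have h7 : (b1 : ℝ) ^ (p - 1) ≤ Real.exp μ * b2 := by
    have h8 : (b1 : ℝ) ^ (p - 1) = Real.exp (Real.log ((b1 : ℝ) ^ (p - 1))) :=
      (Real.exp_log (by positivity)).symm
    have h9 : Real.exp μ * b2 = Real.exp (μ + Real.log b2) := by
      rw [Real.exp_add, Real.exp_log (by linarith)]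
    rw [h8, h9]
    exact Real.exp_le_exp.2 h3
  have h10 : 1 - μ ≤ Real.exp (-μ) := by
    have := Real.add_one_le_exp (-μ)
    linarith
  calc (b1 : ℝ) ^ (p - 1) * (1 - μ) ≤ (b1 : ℝ) ^ (p - 1) * Real.exp (-μ) := by gcongr
    _ ≤ (Real.exp μ * b2) * Real.exp (-μ) := by gcongr
    _ = b2 * (Real.exp μ * Real.exp (-μ)) := by ring
    _ = b2 := by rw [← Real.exp_add, add_neg_cancel, Real.exp_zero, mul_one]

/-! ### the three covering sets -/

open Classical in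
/-- first kind, `r ≤ 3` -/
noncomputable def A1 (N p e r b1 : ℕ) : Finset ℕ :=
  (Icc 1 N).filter (fun n => ∃ x : ℕ, x ≤ b1 ^ r / p ^ e ∧
    GG p x (x - ((b1 ^ r / p ^ e : ℕ) : ℤ)) = (p : ℤ) ^ e * (n : ℤ) ^ r)

open Classical in
/-- second kind, `5 ≤ r < R` -/
noncomputable def A2 (N p e r b1 : ℕ) : Finset ℕ :=
  (Icc 1 (N / b1)).filter (fun n => ∃ x : ℤ,
    GG p x (x - ((b1 ^ r / p ^ e : ℕ) : ℤ)) = (p : ℤ) ^ e * (n : ℤ) ^ r)

open Classical in
/-- third kind, `r ≥ R` -/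
noncomputable def A3 (N p b1 : ℕ) (μ : ℝ) : Finset ℕ :=
  (Icc 1 N).filter (fun n => (b1 : ℝ) ^ (p - 1) * (1 - μ) ≤ n ∧ n < b1 ^ (p - 1) ∧ b1 * n ≤ N)

lemma card_A1 (N p e r b1 : ℕ) (hp : 1 ≤ p) (hr : 1 ≤ r) : (A1 N p e r b1).card ≤ b1 ^ r + 1 := by
  classical
  have hex : ∀ n ∈ A1 N p e r b1, ∃ x : ℕ, x ≤ b1 ^ r / p ^ e ∧
      GG p x (x - ((b1 ^ r / p ^ e : ℕ) : ℤ)) = (p : ℤ) ^ e * (n : ℤ) ^ r := by
    intro n hn
    exact (Finset.mem_filter.1 hn).2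
  choose! f hf using hex
  have h1 : (A1 N p e r b1).card ≤ (range (b1 ^ r + 1)).card := by
    refine Finset.card_le_card_of_injOn f ?_ ?_
    · intro n hn
      have := (hf n hn).1
      have h2 : b1 ^ r / p ^ e ≤ b1 ^ r := Nat.div_le_self _ _
      exact Finset.mem_coe.2 (Finset.mem_range.2 (by omega))
    · intro n hn m hm hnm
      have e1 := (hf n hn).2
      have e2 := (hf m hm).2
      rw [hnm] at e1
      rw [e1] at e2
      have hpe : ((p : ℤ)) ^ e ≠ 0 := by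
        have : (p : ℤ) ≠ 0 := by exact_mod_cast (by omega : p ≠ 0)
        exact pow_ne_zero _ this
      have e3 : ((n : ℤ)) ^ r = (m : ℤ) ^ r := mul_left_cancel₀ hpe e2
      have e4 : n ^ r = m ^ r := by exact_mod_cast e3
      exact Nat.pow_left_injective (by omega) e4
  rwa [Finset.card_range] at h1

lemma card_A3 (N p b1 : ℕ) {μ : ℝ} (hμ0 : 0 ≤ μ) (hμ : μ ≤ 1 / 2) (hb1 : 1 ≤ b1) :
    ((A3 N p b1 μ).card : ℝ) ≤ 2 * N * μ * (1 / b1) := by
  classical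
  have hb1R : (1 : ℝ) ≤ b1 := by exact_mod_cast hb1
  rcases Finset.eq_empty_or_nonempty (A3 N p b1 μ) with h0 | ⟨n0, hn0⟩
  · rw [h0]
    simp only [Finset.card_empty, Nat.cast_zero]
    positivity
  · have h1 := (Finset.mem_filter.1 hn0).2
    have h2 : (b1 : ℝ) * n0 ≤ N := by exact_mod_cast h1.2.2
    have h3 : (b1 : ℝ) * ((b1 : ℝ) ^ (p - 1) * (1 - μ)) ≤ N :=
      (mul_le_mul_of_nonneg_left h1.1 (by linarith)).trans h2
    have hpow : (0 : ℝ) ≤ (b1 : ℝ) ^ (p - 1) := by positivity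
    have h4 : (b1 : ℝ) * (b1 : ℝ) ^ (p - 1) ≤ 2 * N := by
      have h5 : (b1 : ℝ) * (b1 : ℝ) ^ (p - 1) * (1 / 2) ≤ (b1 : ℝ) * (b1 : ℝ) ^ (p - 1) * (1 - μ) := by
        apply mul_le_mul_of_nonneg_left (by linarith) (by positivity)
      linarith
    have h6 : ((A3 N p b1 μ).card : ℝ) ≤ (b1 : ℝ) ^ (p - 1) * μ := by
      have hsub : A3 N p b1 μ ⊆ Ico (⌈(b1 : ℝ) ^ (p - 1) * (1 - μ)⌉₊) (b1 ^ (p - 1)) := by
        intro n hn
        have h7 := (Finset.mem_filter.1 hn).2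
        exact Finset.mem_Ico.2 ⟨Nat.ceil_le.2 h7.1, h7.2.1⟩
      have h8 := Finset.card_le_card hsub
      rw [Nat.card_Ico] at h8
      have h9 : (b1 : ℝ) ^ (p - 1) * (1 - μ) ≤ (⌈(b1 : ℝ) ^ (p - 1) * (1 - μ)⌉₊ : ℝ) := Nat.le_ceil _
      have h10 : ⌈(b1 : ℝ) ^ (p - 1) * (1 - μ)⌉₊ ≤ b1 ^ (p - 1) := by
        apply Nat.ceil_le.2
        push_cast
        nlinarith
      have h11 : ((b1 ^ (p - 1) - ⌈(b1 : ℝ) ^ (p - 1) * (1 - μ)⌉₊ : ℕ) : ℝ) ≤
          (b1 : ℝ) ^ (p - 1) * μ := by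
        rw [Nat.cast_sub h10]
        push_cast
        linarith
      have h12 : ((A3 N p b1 μ).card : ℝ) ≤
        ((b1 ^ (p - 1) - ⌈(b1 : ℝ) ^ (p - 1) * (1 - μ)⌉₊ : ℕ) : ℝ) := by exact_mod_cast h8
      exact h12.trans h11
    have h7 : (b1 : ℝ) ^ (p - 1) ≤ 2 * N * (1 / b1) := by
      rw [mul_one_div, le_div_iff₀ (by linarith)]
      linarith
    calc ((A3 N p b1 μ).card : ℝ) ≤ (b1 : ℝ) ^ (p - 1) * μ := h6
      _ ≤ (2 * N * (1 / b1)) * μ := by gcongr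
      _ = _ := by ring

lemma sum_inv_sqrt (B : ℕ) : ∑ b ∈ Icc 1 B, 1 / √(b : ℝ) ≤ 2 * √(B : ℝ) := by
  induction B with
  | zero => simp
  | succ n ih =>
    rw [Finset.sum_Icc_succ_top (by omega)]
    have h1 : 0 < √((n : ℝ) + 1) := Real.sqrt_pos.2 (by positivity)
    have h2 : 0 ≤ √(n : ℝ) := Real.sqrt_nonneg _
    have h3 : √((n : ℝ) + 1) * √((n : ℝ) + 1) = n + 1 := Real.mul_self_sqrt (by positivity)
    have h4 : √(n : ℝ) * √(n : ℝ) = n := Real.mul_self_sqrt (by positivity)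
    have h5 : 1 / √((n : ℝ) + 1) ≤ 2 * √((n : ℝ) + 1) - 2 * √(n : ℝ) := by
      rw [div_le_iff₀ h1]
      nlinarith [sq_nonneg (√((n : ℝ) + 1) - √(n : ℝ))]
    push_cast
    linarith

lemma sum_inv (B : ℕ) : ∑ b ∈ Icc 1 B, 1 / (b : ℝ) ≤ 1 + Real.log B := by
  have h := harmonic_le_one_add_log B
  rw [harmonic_eq_sum_Icc] at h
  push_cast at h
  simpa [one_div] using h

end Pool.Agent.TH863
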