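import Mathlib
import Pool.Agent.TH863.Count

/-!
Putting the counts together.
-/

set_option autoImplicit false

namespace Pool.Agent.TH863

open Finset Real

lemma card_biUnion_real {α β : Type*} [DecidableEq β] (s : Finset α) (f : α → Finset β) (K : ℝ)
    (h : ∀ a ∈ s, ((f a).card : ℝ) ≤ K) : ((s.biUnion f).card : ℝ) ≤ s.card * K := by
  have h1 : ((s.biUnion f).card : ℝ) ≤ ∑ a ∈ s, ((f a).card : ℝ) := by
    exact_mod_cast Finset.card_biUnion_le
  refine h1.trans ?_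
  have h2 := Finset.sum_le_card_nsmul s (fun a => ((f a).card : ℝ)) K h
  rwa [nsmul_eq_mul] at h2

/-- the products `b * n` with `b ≤ B` and `n ∈ f b` -/
def prods (B : ℕ) (f : ℕ → Finset ℕ) : Finset ℕ :=
  (Icc 1 B).biUnion (fun b => (f b).image (fun n => b * n))

lemma card_prods (B : ℕ) (f : ℕ → Finset ℕ) (g : ℕ → ℝ)
    (h : ∀ b ∈ Icc 1 B, ((f b).card : ℝ) ≤ g b) : ((prods B f).card : ℝ) ≤ ∑ b ∈ Icc 1 B, g b := by
  have h1 : ((prods B f).card : ℝ) ≤
      ∑ b ∈ Icc 1 B, (((f b).image (fun n => b * n)).card : ℝ) := by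
    exact_mod_cast Finset.card_biUnion_le
  refine h1.trans (Finset.sum_le_sum (fun b hb => ?_))
  have h2 : (((f b).image (fun n => b * n)).card : ℝ) ≤ ((f b).card : ℝ) := by
    exact_mod_cast Finset.card_image_le
  exact h2.trans (h b hb)

lemma mem_prods {B b n : ℕ} {f : ℕ → Finset ℕ} (hb : 1 ≤ b) (hB : b ≤ B) (hn : n ∈ f b) :
    b * n ∈ prods B f := by
  refine Finset.mem_biUnion.2 ⟨b, Finset.mem_Icc.2 ⟨hb, hB⟩, ?_⟩
  exact Finset.mem_image.2 ⟨n, hn, rfl⟩

/-- first union -/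
noncomputable def U1 (N P B : ℕ) : Finset ℕ :=
  (Icc 1 P).biUnion fun p => (range 2).biUnion fun e => (Icc 2 3).biUnion fun r =>
    prods B (fun b => A1 N p e r b)

open Classical in
/-- second union -/
noncomputable def U2 (N P R B : ℕ) : Finset ℕ :=
  ((Icc 1 P).filter (fun p => p.Prime ∧ p ≠ 2)).biUnion fun p => (range 2).biUnion fun e =>
    ((Icc 1 R).filter (fun r => r.Prime ∧ 5 ≤ r)).biUnion fun r =>
      prods B (fun b => A2 N p e r b)

/-- third union -/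
noncomputable def U3 (N P : ℕ) (μ : ℝ) : Finset ℕ :=
  (Icc 1 P).biUnion fun p => prods N (fun b => A3 N p b μ)

lemma card_U1 (N P B : ℕ) : ((U1 N P B).card : ℝ) ≤ 8 * P * (B : ℝ) ^ 4 := by
  classical
  have h1 : ∀ p ∈ Icc 1 P, ∀ e ∈ range 2, ∀ r ∈ Icc 2 3,
      ((prods B (fun b => A1 N p e r b)).card : ℝ) ≤ 2 * (B : ℝ) ^ 4 := by
    intro p hp e _ r hr
    have hp1 := (Finset.mem_Icc.1 hp).1
    have hr1 := Finset.mem_Icc.1 hr
    have h2 := card_prods B (fun b => A1 N p e r b) (fun _ => 2 * (B : ℝ) ^ 3) (by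
      intro b hb
      have hb1 := Finset.mem_Icc.1 hb
      have h3 := card_A1 N p e r b hp1 (by omega)
      have h4 : b ^ r + 1 ≤ 2 * B ^ 3 := by
        have h5 : b ^ r ≤ B ^ 3 := (Nat.pow_le_pow_left hb1.2 r).trans
          (Nat.pow_le_pow_right (by omega) hr1.2)
        have h6 : 1 ≤ B ^ 3 := Nat.one_le_pow _ _ (by omega)
        omega
      exact_mod_cast h3.trans h4)
    refine h2.trans ?_
    rw [Finset.sum_const, Nat.card_Icc, nsmul_eq_mul, Nat.add_sub_cancel]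
    apply le_of_eq
    ring
  have h2 : ∀ p ∈ Icc 1 P, ∀ e ∈ range 2,
      (((Icc 2 3).biUnion fun r => prods B (fun b => A1 N p e r b)).card : ℝ) ≤
        4 * (B : ℝ) ^ 4 := by
    intro p hp e he
    refine (card_biUnion_real _ _ _ (h1 p hp e he)).trans ?_
    rw [Nat.card_Icc]
    apply le_of_eq
    push_cast
    ring
  have h3 : ∀ p ∈ Icc 1 P,
      (((range 2).biUnion fun e => (Icc 2 3).biUnion fun r =>
        prods B (fun b => A1 N p e r b)).card : ℝ) ≤ 8 * (B : ℝ) ^ 4 := by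
    intro p hp
    refine (card_biUnion_real _ _ _ (h2 p hp)).trans ?_
    rw [Finset.card_range]
    apply le_of_eq
    push_cast
    ring
  refine (card_biUnion_real _ _ _ h3).trans ?_
  rw [Nat.card_Icc, Nat.add_sub_cancel]
  apply le_of_eq
  ring

lemma card_U3 (N P : ℕ) {μ : ℝ} (hμ0 : 0 ≤ μ) (hμ : μ ≤ 1 / 2) :
    ((U3 N P μ).card : ℝ) ≤ P * (2 * N * μ * (1 + Real.log N)) := by
  classical
  have h1 : ∀ p ∈ Icc 1 P, ((prods N (fun b => A3 N p b μ)).card : ℝ) ≤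
      2 * N * μ * (1 + Real.log N) := by
    intro p _
    have h2 := card_prods N (fun b => A3 N p b μ) (fun b => 2 * N * μ * (1 / (b : ℝ))) (by
      intro b hb
      exact card_A3 N p b hμ0 hμ (Finset.mem_Icc.1 hb).1)
    refine h2.trans ?_
    rw [← Finset.mul_sum]
    exact mul_le_mul_of_nonneg_left (sum_inv N) (by positivity)
  refine (card_biUnion_real _ _ _ h1).trans ?_
  rw [Nat.card_Icc, Nat.add_sub_cancel]

lemma card_A2 : ∃ C : ℝ, 0 < C ∧ ∀ N p e r b : ℕ, 1 ≤ N → p.Prime → p ≠ 2 → r.Prime → 5 ≤ r →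
    1 ≤ b → ((A2 N p e r b).card : ℝ) ≤ C * √N * Real.log (N + 2) * (1 / √(b : ℝ)) := by
  classical
  obtain ⟨C, hC, h⟩ := sieve_count
  refine ⟨C, hC, fun N p e r b hN hp hp2 hr hr5 hb => ?_⟩
  have hbR : (1 : ℝ) ≤ b := by exact_mod_cast hb
  have hNR : (1 : ℝ) ≤ N := by exact_mod_cast hN
  have hlog0 : 0 ≤ Real.log ((N : ℝ) + 2) := Real.log_nonneg (by linarith)
  rcases Nat.eq_zero_or_pos (N / b) with h0 | h0
  · have h1 : A2 N p e r b = ∅ := by
      rw [A2, h0]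
      rfl
    rw [h1, Finset.card_empty, Nat.cast_zero]
    positivity
  · have h1 := h (N / b) h0 p hp hp2 r hr hr5 e ((b ^ r / p ^ e : ℕ) : ℤ) (A2 N p e r b)
      (Finset.filter_subset _ _) (fun n hn => (Finset.mem_filter.1 hn).2)
    have h2 : ((N / b : ℕ) : ℝ) ≤ N / b := Nat.cast_div_le
    have h3 : √((N / b : ℕ) : ℝ) ≤ √N * (1 / √(b : ℝ)) := by
      rw [mul_one_div, ← Real.sqrt_div (by linarith)]
      exact Real.sqrt_le_sqrt h2
    have h4 : Real.log (((N / b : ℕ) : ℝ) + 2) ≤ Real.log ((N : ℝ) + 2) := by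
      apply Real.log_le_log (by positivity)
      have : ((N / b : ℕ) : ℝ) ≤ N := by exact_mod_cast Nat.div_le_self N b
      linarith
    calc ((A2 N p e r b).card : ℝ) ≤ C * √((N / b : ℕ) : ℝ) * Real.log (((N / b : ℕ) : ℝ) + 2) := h1
      _ ≤ C * (√N * (1 / √(b : ℝ))) * Real.log ((N : ℝ) + 2) := by
        apply mul_le_mul _ h4 (Real.log_nonneg (by linarith [Nat.cast_nonneg (α := ℝ) (N / b)]))
          (by positivity)
        exact mul_le_mul_of_nonneg_left h3 hC.le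
      _ = _ := by ring

lemma card_U2 : ∃ C : ℝ, 0 < C ∧ ∀ N P R B : ℕ, 1 ≤ N →
    ((U2 N P R B).card : ℝ) ≤ C * P * R * (√N * Real.log (N + 2) * √(B : ℝ)) := by
  classical
  obtain ⟨C, hC, h⟩ := card_A2
  refine ⟨4 * C, by linarith, fun N P R B hN => ?_⟩
  have hNR : (1 : ℝ) ≤ N := by exact_mod_cast hN
  have hlog0 : 0 ≤ Real.log ((N : ℝ) + 2) := Real.log_nonneg (by linarith)
  obtain ⟨K, hK⟩ : ∃ K : ℝ, K = √N * Real.log (N + 2) * √(B : ℝ) := ⟨_, rfl⟩
  have hK0 : 0 ≤ K := by rw [hK]; positivity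
  have h1 : ∀ p ∈ (Icc 1 P).filter (fun p => p.Prime ∧ p ≠ 2), ∀ e ∈ range 2,
      ∀ r ∈ (Icc 1 R).filter (fun r => r.Prime ∧ 5 ≤ r),
      ((prods B (fun b => A2 N p e r b)).card : ℝ) ≤ 2 * C * K := by
    intro p hp e _ r hr
    have hp1 := (Finset.mem_filter.1 hp).2
    have hr1 := (Finset.mem_filter.1 hr).2
    have h2 := card_prods B (fun b => A2 N p e r b)
      (fun b => C * √N * Real.log (N + 2) * (1 / √(b : ℝ))) (by
      intro b hb
      exact h N p e r b hN hp1.1 hp1.2 hr1.1 hr1.2 (Finset.mem_Icc.1 hb).1)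
    refine h2.trans ?_
    rw [← Finset.mul_sum]
    calc C * √N * Real.log (N + 2) * ∑ b ∈ Icc 1 B, 1 / √(b : ℝ) ≤
        C * √N * Real.log (N + 2) * (2 * √(B : ℝ)) :=
          mul_le_mul_of_nonneg_left (sum_inv_sqrt B) (by positivity)
      _ = 2 * C * K := by rw [hK]; ring
  have h2 : ∀ p ∈ (Icc 1 P).filter (fun p => p.Prime ∧ p ≠ 2), ∀ e ∈ range 2,
      ((((Icc 1 R).filter (fun r => r.Prime ∧ 5 ≤ r)).biUnion fun r =>
        prods B (fun b => A2 N p e r b)).card : ℝ) ≤ R * (2 * C * K) := by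
    intro p hp e he
    refine (card_biUnion_real _ _ _ (h1 p hp e he)).trans ?_
    apply mul_le_mul_of_nonneg_right _ (by positivity)
    have := Finset.card_filter_le (Icc 1 R) (fun r => r.Prime ∧ 5 ≤ r)
    rw [Nat.card_Icc, Nat.add_sub_cancel] at this
    exact_mod_cast this
  have h3 : ∀ p ∈ (Icc 1 P).filter (fun p => p.Prime ∧ p ≠ 2),
      (((range 2).biUnion fun e => ((Icc 1 R).filter (fun r => r.Prime ∧ 5 ≤ r)).biUnion fun r =>
        prods B (fun b => A2 N p e r b)).card : ℝ) ≤ 2 * (R * (2 * C * K)) := by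
    intro p hp
    refine (card_biUnion_real _ _ _ (h2 p hp)).trans ?_
    rw [Finset.card_range]
    push_cast
    exact le_refl _
  refine (card_biUnion_real _ _ _ h3).trans ?_
  have h4 : ((((Icc 1 P).filter (fun p => p.Prime ∧ p ≠ 2)).card : ℕ) : ℝ) ≤ P := by
    have := Finset.card_filter_le (Icc 1 P) (fun p => p.Prime ∧ p ≠ 2)
    rw [Nat.card_Icc, Nat.add_sub_cancel] at this
    exact_mod_cast this
  calc _ ≤ (P : ℝ) * (2 * (R * (2 * C * K))) := mul_le_mul_of_nonneg_right h4 (by positivity)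
    _ = 4 * C * P * R * K := by ring
    _ = _ := by rw [hK]

end Pool.Agent.TH863
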