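import Mathlib
import Pool.Agent.TH863.Final

/-!
The covering of the set of `z ≤ N` and the final count.
-/

set_option autoImplicit false

namespace Pool.Agent.TH863

open Finset Real

/-- the numbers `z ≤ N` with `x ^ p + y ^ p = z ^ r` for some coprime positive `x`, `y` and primes
`p`, `r` with `2 / p + 1 / r ≤ 1` -/
def EE (N : ℕ) : Set ℕ :=
  {z : ℕ | z ≤ N ∧ ∃ x y p r : ℕ, 0 < x ∧ 0 < y ∧ p.Prime ∧ r.Prime ∧ Nat.Coprime x y ∧
    (1 : ℚ) / p + 1 / p + 1 / r ≤ 1 ∧ x ^ p + y ^ p = z ^ r}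

lemma exps {p r : ℕ} (hp : p.Prime) (hr : r.Prime) (h : (1 : ℚ) / p + 1 / p + 1 / r ≤ 1) :
    p ≠ 2 ∧ (p = 3 → r ≠ 2) := by
  have hr0 : (0 : ℚ) < 1 / r := by
    have : (0 : ℚ) < r := by exact_mod_cast hr.pos
    positivity
  constructor
  · rintro rfl
    norm_num at h
    exact hr.ne_zero h
  · rintro rfl rfl
    norm_num at h

lemma odd_prime_cases {p : ℕ} (hp : p.Prime) (hp2 : p ≠ 2) : p = 3 ∨ 5 ≤ p := by
  have h2 := hp.two_le
  rcases Nat.lt_or_ge p 5 with h | h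
  · left
    have : p ≠ 4 := by
      rintro rfl
      revert hp
      decide
    omega
  · exact Or.inr h

theorem cover {N : ℕ} (hN : 1 ≤ N) {P R B1 B2 : ℕ} {M μ : ℝ} (hM : 1 ≤ M)
    (hP : ∀ p : ℕ, (p : ℝ) ≤ 7 * Real.log (N + 2) → p ≤ P)
    (hB1 : ∀ b : ℕ, (b : ℝ) ≤ 14 * Real.log (N + 2) * (N : ℝ) ^ (1 / 5 : ℝ) → b ≤ B1)
    (hB2 : ∀ b : ℕ, (b : ℝ) ≤ 14 * Real.log (N + 2) * (N : ℝ) ^ (1 / 3 : ℝ) → b ≤ B2)
    (hR : ∀ r : ℕ, R < r → M ≤ r)
    (hμ : 98 * Real.log (N + 2) ^ 2 / M ≤ μ) :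
    EE N ⊆ ((U1 N P B1 ∪ U2 N P R B2 ∪ U3 N P μ : Finset ℕ) : Set ℕ) := by
  classical
  rintro z ⟨hz, x, y, p, r, hx, hy, hp, hr, hxy, hh, h⟩
  obtain ⟨hp2, h32⟩ := exps hp hr hh
  obtain ⟨e, b1, b2, hzb, D⟩ := dat_of_solution hp hp2 hr.two_le hx hy hxy hz h
  have hNR : (1 : ℝ) ≤ N := by exact_mod_cast hN
  have hp1 := hp.one_le
  have hpL := D.p_le hp1 hN
  have hpP := hP p hpL
  have hpR : (1 : ℝ) ≤ p := by exact_mod_cast hp1
  have hb2N : b2 ≤ N := (Nat.le_mul_of_pos_left _ D.h1).trans D.hN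
  have hb1N : b1 ≤ N := (Nat.le_mul_of_pos_right _ D.h2).trans D.hN
  have he2 : e < 2 := by have := D.he; omega
  obtain ⟨L, hL⟩ : ∃ L : ℝ, L = Real.log ((N : ℝ) + 2) := ⟨_, rfl⟩
  rw [← hL] at hpL hB1 hB2 hμ
  rw [Finset.mem_coe, hzb]
  have hmemP : p ∈ Icc 1 P := Finset.mem_Icc.2 ⟨hp1, hpP⟩
  rcases Nat.lt_or_ge r 5 with hr5 | hr5
  · -- `r ≤ 3`
    have hr2 := hr.two_le
    have hr4 : r ≠ 4 := by
      rintro rfl
      revert hr
      decide
    have hp5 : 5 ≤ p := by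
      rcases odd_prime_cases hp hp2 with h3 | h3
      · exfalso
        have hr3 : r = 3 := by
          have := h32 h3
          omega
        rw [h3, hr3] at h
        have hz0 : z ≠ 0 := by
          rintro rfl
          have : 0 < x ^ 3 := by positivity
          omega
        exact fermatLastTheoremThree x y z (by omega) (by omega) hz0 h
      · exact h3
    have hb := D.b1_le (k := 5) (by norm_num) hp5 (by omega) hN
    have hb' : b1 ≤ B1 := by
      apply hB1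
      refine hb.trans ?_
      have h5 : (0 : ℝ) ≤ (N : ℝ) ^ (1 / 5 : ℝ) := by positivity
      have : (1 / ((5 : ℕ) : ℝ)) = (1 / 5 : ℝ) := by norm_num
      rw [this]
      apply mul_le_mul_of_nonneg_right _ h5
      linarith
    apply Finset.mem_union_left
    apply Finset.mem_union_left
    refine Finset.mem_biUnion.2 ⟨p, hmemP, ?_⟩
    refine Finset.mem_biUnion.2 ⟨e, Finset.mem_range.2 he2, ?_⟩
    refine Finset.mem_biUnion.2 ⟨r, Finset.mem_Icc.2 ⟨hr2, by omega⟩, ?_⟩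
    apply mem_prods D.h1 hb'
    exact Finset.mem_filter.2 ⟨Finset.mem_Icc.2 ⟨D.h2, hb2N⟩, D.ex⟩
  · rcases Nat.lt_or_ge R r with hrR | hrR
    · -- `r > R`
      have hMr := hR r hrR
      have hcl := D.close hp1 (by linarith : (0 : ℝ) < M) hMr
      have hlog2p : Real.log (2 * (p : ℝ)) ≤ 2 * p := by
        have := Real.log_le_sub_one_of_pos (show (0 : ℝ) < 2 * p by linarith)
        linarith
      have hμ' : (p : ℝ) * Real.log (2 * p) / M ≤ μ := by
        refine le_trans ?_ hμ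
        apply div_le_div_of_nonneg_right _ (by linarith)
        have h0 : 0 ≤ Real.log (2 * (p : ℝ)) := Real.log_nonneg (by linarith)
        calc (p : ℝ) * Real.log (2 * p) ≤ (7 * L) * (14 * L) := by
              apply mul_le_mul hpL (by linarith) h0 (by linarith)
          _ = 98 * L ^ 2 := by ring
      apply Finset.mem_union_right
      refine Finset.mem_biUnion.2 ⟨p, hmemP, ?_⟩
      apply mem_prods D.h1 hb1N
      refine Finset.mem_filter.2 ⟨Finset.mem_Icc.2 ⟨D.h2, hb2N⟩, ?_, D.low, D.hN⟩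
      refine le_trans ?_ hcl
      apply mul_le_mul_of_nonneg_left _ (by positivity)
      linarith
    · -- `5 ≤ r ≤ R`
      have hp3 : 3 ≤ p := by
        have := hp.two_le
        omega
      have hb := D.b1_le (k := 3) (by norm_num) hp3 (by omega) hN
      have hb' : b1 ≤ B2 := by
        apply hB2
        refine hb.trans ?_
        have h5 : (0 : ℝ) ≤ (N : ℝ) ^ (1 / 3 : ℝ) := by positivity
        have : (1 / ((3 : ℕ) : ℝ)) = (1 / 3 : ℝ) := by norm_num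
        rw [this]
        apply mul_le_mul_of_nonneg_right _ h5
        linarith
      apply Finset.mem_union_left
      apply Finset.mem_union_right
      refine Finset.mem_biUnion.2 ⟨p, Finset.mem_filter.2 ⟨hmemP, hp, hp2⟩, ?_⟩
      refine Finset.mem_biUnion.2 ⟨e, Finset.mem_range.2 he2, ?_⟩
      refine Finset.mem_biUnion.2 ⟨r, Finset.mem_filter.2 ⟨Finset.mem_Icc.2 ⟨by omega, hrR⟩, hr, hr5⟩, ?_⟩
      apply mem_prods D.h1 hb'
      refine Finset.mem_filter.2 ⟨Finset.mem_Icc.2 ⟨D.h2, ?_⟩, ?_⟩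
      · rw [Nat.le_div_iff_mul_le D.h1, mul_comm]
        exact D.hN
      · obtain ⟨x', _, hx'⟩ := D.ex
        exact ⟨x', hx'⟩

lemma bound1 {P B L M N5 : ℝ} (hL : 1 ≤ L) (_hM : 1 ≤ M) (_hP0 : 0 ≤ P) (hP : P ≤ 7 * L)
    (hB0 : 0 ≤ B) (hB : B ≤ 14 * L * N5) (_hN50 : 0 ≤ N5) (hN5 : N5 ^ 4 ≤ M ^ 5) :
    8 * P * B ^ 4 ≤ 2151296 * L ^ 5 * M ^ 5 := by
  have h1 : B ^ 4 ≤ (14 * L * N5) ^ 4 := pow_le_pow_left₀ hB0 hB 4
  have h2 : (14 * L * N5) ^ 4 ≤ 38416 * L ^ 4 * M ^ 5 := by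
    calc (14 * L * N5) ^ 4 = 38416 * L ^ 4 * N5 ^ 4 := by ring
      _ ≤ 38416 * L ^ 4 * M ^ 5 := mul_le_mul_of_nonneg_left hN5 (by positivity)
  calc 8 * P * B ^ 4 ≤ 8 * (7 * L) * (38416 * L ^ 4 * M ^ 5) := by
        apply mul_le_mul (by linarith) (h1.trans h2) (by positivity) (by linarith)
    _ = 2151296 * L ^ 5 * M ^ 5 := by ring

lemma bound2 {C P R L M s t : ℝ} (hC : 0 ≤ C) (hL : 1 ≤ L) (hM : 1 ≤ M) (_hP0 : 0 ≤ P)
    (hP : P ≤ 7 * L) (hR0 : 0 ≤ R) (hR : R ≤ 2 * M) (hs0 : 0 ≤ s) (hs : s ≤ M ^ 3)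
    (ht0 : 0 ≤ t) (ht : t ≤ 4 * L * M) :
    C * P * R * (s * L * t) ≤ 56 * C * L ^ 5 * M ^ 5 := by
  calc C * P * R * (s * L * t) ≤ C * (7 * L) * (2 * M) * (M ^ 3 * L * (4 * L * M)) := by
        gcongr
    _ = 56 * C * L ^ 3 * M ^ 5 := by ring
    _ ≤ 56 * C * L ^ 5 * M ^ 5 := by
        have h1 : L ^ 3 ≤ L ^ 5 := pow_le_pow_right₀ hL (by norm_num)
        have h2 : 0 ≤ M ^ 5 := by positivity
        have h3 : 56 * C * L ^ 3 ≤ 56 * C * L ^ 5 := mul_le_mul_of_nonneg_left h1 (by positivity)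
        exact mul_le_mul_of_nonneg_right h3 h2

lemma bound3 {P L M l : ℝ} (hL : 1 ≤ L) (hM : 1 ≤ M) (_hP0 : 0 ≤ P) (hP : P ≤ 7 * L)
    (hl0 : 0 ≤ l) (hl : l ≤ L) :
    P * (2 * M ^ 6 * (98 * L ^ 2 / M) * (1 + l)) ≤ 2744 * L ^ 5 * M ^ 5 := by
  have h1 : 2 * M ^ 6 * (98 * L ^ 2 / M) = 196 * L ^ 2 * M ^ 5 := by
    field_simp
    ring
  rw [h1]
  calc P * (196 * L ^ 2 * M ^ 5 * (1 + l)) ≤ (7 * L) * (196 * L ^ 2 * M ^ 5 * (2 * L)) := by
        apply mul_le_mul hP _ (by positivity) (by linarith)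
        apply mul_le_mul_of_nonneg_left (by linarith) (by positivity)
    _ = 2744 * L ^ 4 * M ^ 5 := by ring
    _ ≤ 2744 * L ^ 5 * M ^ 5 := by
        have h1 : L ^ 4 ≤ L ^ 5 := pow_le_pow_right₀ hL (by norm_num)
        apply mul_le_mul_of_nonneg_right _ (by positivity)
        linarith

theorem final : ∃ C : ℝ, ∀ N : ℕ, 1 ≤ N →
    ((EE N).ncard : ℝ) ≤ C * (N : ℝ) ^ (5 / 6 : ℝ) * (Real.log (N + 2)) ^ 5 := by
  classical
  obtain ⟨C, hC, hU2⟩ := card_U2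
  refine ⟨2151296 + 56 * C + 2744 + 196, fun N hN => ?_⟩
  have hNR : (1 : ℝ) ≤ N := by exact_mod_cast hN
  obtain ⟨L, hL⟩ : ∃ L : ℝ, L = Real.log ((N : ℝ) + 2) := ⟨_, rfl⟩
  obtain ⟨M, hMdef⟩ : ∃ M : ℝ, M = (N : ℝ) ^ (1 / 6 : ℝ) := ⟨_, rfl⟩
  have hL1 : 1 ≤ L := by
    rw [hL, Real.le_log_iff_exp_le (by linarith)]
    have := Real.exp_one_lt_d9
    linarith
  have hM1 : 1 ≤ M := by
    rw [hMdef]
    exact Real.one_le_rpow hNR (by norm_num)
  have hM6 : M ^ 6 = N := by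
    rw [hMdef, ← Real.rpow_natCast, ← Real.rpow_mul (by linarith)]
    norm_num
  have hM5 : (N : ℝ) ^ (5 / 6 : ℝ) = M ^ 5 := by
    rw [hMdef, ← Real.rpow_natCast, ← Real.rpow_mul (by linarith)]
    norm_num
  have hM2 : (N : ℝ) ^ (1 / 3 : ℝ) = M ^ 2 := by
    rw [hMdef, ← Real.rpow_natCast, ← Real.rpow_mul (by linarith)]
    norm_num
  have hM3 : √(N : ℝ) = M ^ 3 := by
    rw [← hM6, show M ^ 6 = (M ^ 3) ^ 2 by ring]
    exact Real.sqrt_sq (by positivity)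
  have hN5 : ((N : ℝ) ^ (1 / 5 : ℝ)) ^ 4 ≤ M ^ 5 := by
    rw [← hM5, ← Real.rpow_natCast, ← Real.rpow_mul (by linarith)]
    apply Real.rpow_le_rpow_of_exponent_le hNR
    norm_num
  rw [hM5, ← hL]
  have hEN : (EE N).ncard ≤ N + 1 := by
    have h1 : EE N ⊆ ((range (N + 1) : Finset ℕ) : Set ℕ) := by
      intro z hz
      have := hz.1
      exact Finset.mem_coe.2 (Finset.mem_range.2 (by omega))
    have h2 := Set.ncard_le_ncard h1 (Finset.finite_toSet _)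
    rwa [Set.ncard_coe_finset, Finset.card_range] at h2
  by_cases hμ : 98 * L ^ 2 / M ≤ 1 / 2
  · obtain ⟨P, hPdef⟩ : ∃ P : ℕ, P = ⌊7 * L⌋₊ := ⟨_, rfl⟩
    obtain ⟨B1, hB1def⟩ : ∃ B : ℕ, B = ⌊14 * L * (N : ℝ) ^ (1 / 5 : ℝ)⌋₊ := ⟨_, rfl⟩
    obtain ⟨B2, hB2def⟩ : ∃ B : ℕ, B = ⌊14 * L * (N : ℝ) ^ (1 / 3 : ℝ)⌋₊ := ⟨_, rfl⟩
    obtain ⟨R, hRdef⟩ : ∃ R : ℕ, R = ⌈M⌉₊ := ⟨_, rfl⟩
    have hcov : EE N ⊆ ((U1 N P B1 ∪ U2 N P R B2 ∪ U3 N P (98 * L ^ 2 / M) : Finset ℕ) : Set ℕ) := by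
      apply cover hN hM1
      · intro p hp
        rw [hPdef]
        rw [← hL] at hp
        exact Nat.le_floor hp
      · intro b hb
        rw [hB1def]
        rw [← hL] at hb
        exact Nat.le_floor hb
      · intro b hb
        rw [hB2def]
        rw [← hL] at hb
        exact Nat.le_floor hb
      · intro r hr
        rw [hRdef] at hr
        have h1 := Nat.le_ceil M
        have h2 : ((⌈M⌉₊ : ℕ) : ℝ) ≤ r := by exact_mod_cast hr.le
        linarith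
      · rw [hL]
    have h1 := Set.ncard_le_ncard hcov (Finset.finite_toSet _)
    rw [Set.ncard_coe_finset] at h1
    have h2 : (U1 N P B1 ∪ U2 N P R B2 ∪ U3 N P (98 * L ^ 2 / M)).card ≤
        (U1 N P B1).card + (U2 N P R B2).card + (U3 N P (98 * L ^ 2 / M)).card :=
      (Finset.card_union_le _ _).trans (Nat.add_le_add_right (Finset.card_union_le _ _) _)
    have h3 : ((EE N).ncard : ℝ) ≤
        (U1 N P B1).card + (U2 N P R B2).card + (U3 N P (98 * L ^ 2 / M)).card := by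
      exact_mod_cast h1.trans h2
    have hP7 : (P : ℝ) ≤ 7 * L := by
      rw [hPdef]
      exact Nat.floor_le (by linarith)
    have hP0 : (0 : ℝ) ≤ P := Nat.cast_nonneg _
    have hb1 : ((U1 N P B1).card : ℝ) ≤ 2151296 * L ^ 5 * M ^ 5 := by
      refine (card_U1 N P B1).trans ?_
      refine bound1 hL1 hM1 hP0 hP7 (Nat.cast_nonneg _) ?_ (by positivity) hN5
      rw [hB1def]
      exact Nat.floor_le (by positivity)
    have hb2 : ((U2 N P R B2).card : ℝ) ≤ 56 * C * L ^ 5 * M ^ 5 := by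
      refine (hU2 N P R B2 hN).trans ?_
      rw [← hL]
      refine bound2 hC.le hL1 hM1 hP0 hP7 (Nat.cast_nonneg _) ?_ (by positivity) hM3.le
        (by positivity) ?_
      · rw [hRdef]
        have := Nat.ceil_lt_add_one (show 0 ≤ M by linarith)
        linarith
      · apply Real.sqrt_le_iff.2
        refine ⟨by positivity, ?_⟩
        have h4 : (B2 : ℝ) ≤ 14 * L * (N : ℝ) ^ (1 / 3 : ℝ) := by
          rw [hB2def]
          exact Nat.floor_le (by positivity)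
        rw [hM2] at h4
        refine h4.trans ?_
        have h5 : (4 * L * M) ^ 2 = 16 * (L * L) * M ^ 2 := by ring
        rw [h5]
        apply mul_le_mul_of_nonneg_right _ (by positivity)
        nlinarith
    have hb3 : ((U3 N P (98 * L ^ 2 / M)).card : ℝ) ≤ 2744 * L ^ 5 * M ^ 5 := by
      refine (card_U3 N P (by positivity) hμ).trans ?_
      rw [← hM6]
      refine bound3 hL1 hM1 hP0 hP7 ?_ ?_
      · rw [hM6]
        exact Real.log_nonneg hNR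
      · rw [hM6, hL]
        exact Real.log_le_log (by linarith) (by linarith)
    have h5 : (2151296 + 56 * C + 2744 + 196) * M ^ 5 * L ^ 5 =
      2151296 * L ^ 5 * M ^ 5 + 56 * C * L ^ 5 * M ^ 5 + 2744 * L ^ 5 * M ^ 5 +
        196 * L ^ 5 * M ^ 5 := by ring
    have h6 : 0 ≤ 196 * L ^ 5 * M ^ 5 := by positivity
    rw [h5]
    linarith
  · push Not at hμ
    have h1 : M < 196 * L ^ 2 := by
      rw [lt_div_iff₀ (by linarith)] at hμ
      linarith
    have h2 : ((EE N).ncard : ℝ) ≤ N + 1 := by exact_mod_cast hEN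
    have h3 : (N : ℝ) + 1 ≤ 2 * N := by linarith
    have hM50 : 0 ≤ M ^ 5 := by positivity
    have h4 : 2 * (N : ℝ) ≤ 392 * L ^ 5 * M ^ 5 := by
      rw [← hM6]
      calc 2 * M ^ 6 = 2 * M * M ^ 5 := by ring
        _ ≤ 2 * (196 * L ^ 2) * M ^ 5 := by
          apply mul_le_mul_of_nonneg_right _ hM50
          linarith
        _ ≤ 392 * L ^ 5 * M ^ 5 := by
          apply mul_le_mul_of_nonneg_right _ hM50
          have : L ^ 2 ≤ L ^ 5 := pow_le_pow_right₀ hL1 (by norm_num)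
          linarith
    have h5 : 392 * L ^ 5 * M ^ 5 ≤ (2151296 + 56 * C + 2744 + 196) * M ^ 5 * L ^ 5 := by
      have : (2151296 + 56 * C + 2744 + 196) * M ^ 5 * L ^ 5 =
        (2151296 + 56 * C + 2744 + 196) * (L ^ 5 * M ^ 5) := by ring
      rw [this, mul_assoc]
      apply mul_le_mul_of_nonneg_right _ (by positivity)
      linarith
    linarith

end Pool.Agent.TH863
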