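import Pool.Agent.TH854.BV.Inf
import Pool.Agent.TH854.BV.Four

/-!
# Ordered representation functions of order two: the gap between lower and upper limit
-/

set_option autoImplicit false

open Finset Filter Topology

namespace Pool.Agent.TH863.OrdRep

open Pool.Agent.H396R2 Pool.Agent.TH854.BV

/-- number of ordered pairs in `A × A` with sum `n` -/
noncomputable def ord (A : Set ℕ) (n : ℕ) : ℕ :=
  Set.ncard {p : ℕ × ℕ | p.1 ∈ A ∧ p.2 ∈ A ∧ p.1 + p.2 = n}

open Classical in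
/-- indicator of the doubles of elements of `A` -/
noncomputable def dbl (A : Set ℕ) (n : ℕ) : ℕ := if ∃ a ∈ A, a + a = n then 1 else 0

open Classical in
/-- the ordered pairs as a finset -/
noncomputable def P (A : Set ℕ) (n : ℕ) : Finset (ℕ × ℕ) :=
  (antidiagonal n).filter (fun p => p.1 ∈ A ∧ p.2 ∈ A)

lemma ord_eq (A : Set ℕ) (n : ℕ) : ord A n = (P A n).card := by
  unfold ord P
  rw [← Set.ncard_coe_finset]
  congr 1
  ext p
  simp only [Set.mem_ofPred_eq, coe_filter, HasAntidiagonal.mem_antidiagonal]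
  tauto

lemma rep_eq (A : Set ℕ) (n : ℕ) : rep A 2 n = ((P A n).filter (fun p => p.1 ≤ p.2)).card := by
  unfold rep
  symm
  rw [← Set.ncard_coe_finset]
  refine Set.ncard_congr (fun p _ => ({p.1, p.2} : Multiset ℕ)) ?_ ?_ ?_
  · rintro ⟨a, b⟩ hp
    simp only [P, coe_filter, mem_filter, HasAntidiagonal.mem_antidiagonal, Set.mem_ofPred_eq] at hp
    obtain ⟨⟨h1, h2, h3⟩, _⟩ := hp
    refine ⟨by simp, ?_, by simpa using h1⟩
    intro c hc
    simp only [Multiset.insert_eq_cons, Multiset.mem_cons, Multiset.mem_singleton] at hc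
    rcases hc with rfl | rfl
    · exact h2
    · exact h3
  · rintro ⟨a, b⟩ ⟨c, d⟩ hp hq he
    simp only [P, coe_filter, mem_filter, HasAntidiagonal.mem_antidiagonal, Set.mem_ofPred_eq] at hp hq he
    obtain ⟨⟨h1, _, _⟩, h4⟩ := hp
    obtain ⟨⟨k1, _, _⟩, k4⟩ := hq
    have : a ∈ ({c, d} : Multiset ℕ) := by
      rw [← he]; simp
    simp only [Multiset.insert_eq_cons, Multiset.mem_cons, Multiset.mem_singleton] at this
    rw [Prod.mk.injEq]
    rcases this with h | h <;> constructor <;> omega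
  · rintro s ⟨h1, h2, h3⟩
    obtain ⟨a, b, rfl⟩ := Multiset.card_eq_two.1 h1
    have ha : a ∈ A := h2 a (by simp)
    have hb : b ∈ A := h2 b (by simp)
    have hs : a + b = n := by simpa using h3
    rcases le_total a b with hab | hab
    · refine ⟨(a, b), ?_, rfl⟩
      simp only [P, coe_filter, mem_filter, HasAntidiagonal.mem_antidiagonal, Set.mem_ofPred_eq]
      exact ⟨⟨hs, ha, hb⟩, hab⟩
    · refine ⟨(b, a), ?_, ?_⟩
      · simp only [P, coe_filter, mem_filter, HasAntidiagonal.mem_antidiagonal, Set.mem_ofPred_eq]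
        exact ⟨⟨by omega, hb, ha⟩, hab⟩
      · exact Multiset.pair_comm b a

lemma ord_add_dbl (A : Set ℕ) (n : ℕ) : ord A n + dbl A n = 2 * rep A 2 n := by
  classical
  rw [ord_eq, rep_eq]
  have h1 : ((P A n).filter (fun p => p.1 ≤ p.2)).card = ((P A n).filter (fun p => p.2 ≤ p.1)).card := by
    refine Finset.card_bij (fun p _ => p.swap) ?_ ?_ ?_
    · rintro ⟨a, b⟩ hp
      simp only [P, mem_filter, HasAntidiagonal.mem_antidiagonal, Prod.swap_prod_mk] at hp ⊢
      exact ⟨⟨by omega, hp.1.2.2, hp.1.2.1⟩, hp.2⟩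
    · rintro ⟨a, b⟩ _ ⟨c, d⟩ _ he
      exact Prod.swap_injective he
    · rintro ⟨a, b⟩ hp
      refine ⟨(b, a), ?_, rfl⟩
      simp only [P, mem_filter, HasAntidiagonal.mem_antidiagonal] at hp ⊢
      exact ⟨⟨by omega, hp.1.2.2, hp.1.2.1⟩, hp.2⟩
  have h2 : (P A n).filter (fun p => p.1 ≤ p.2) ∪ (P A n).filter (fun p => p.2 ≤ p.1) = P A n := by
    rw [← Finset.filter_or]
    apply Finset.filter_true_of_mem
    rintro ⟨a, b⟩ _
    exact le_total a b
  have h3 : (P A n).filter (fun p => p.1 ≤ p.2) ∩ (P A n).filter (fun p => p.2 ≤ p.1)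
      = (P A n).filter (fun p => p.1 = p.2) := by
    rw [← Finset.filter_and]
    apply Finset.filter_congr
    rintro ⟨a, b⟩ _
    simp only
    omega
  have h4 : ((P A n).filter (fun p => p.1 = p.2)).card = dbl A n := by
    unfold dbl
    split_ifs with h
    · obtain ⟨a, ha, hn⟩ := h
      rw [Finset.card_eq_one]
      refine ⟨(a, a), ?_⟩
      ext ⟨x, y⟩
      simp only [P, mem_filter, HasAntidiagonal.mem_antidiagonal, mem_singleton, Prod.mk.injEq]
      constructor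
      · rintro ⟨⟨h1, _, _⟩, h4⟩
        omega
      · rintro ⟨rfl, rfl⟩
        exact ⟨⟨hn, ha, ha⟩, rfl⟩
    · rw [Finset.card_eq_zero, Finset.filter_eq_empty_iff]
      rintro ⟨x, y⟩ hp he
      simp only [P, mem_filter, HasAntidiagonal.mem_antidiagonal] at hp he
      subst he
      exact h ⟨x, hp.2.1, hp.1⟩
  have h5 := Finset.card_union_add_card_inter ((P A n).filter (fun p => p.1 ≤ p.2))
    ((P A n).filter (fun p => p.2 ≤ p.1))
  rw [h2, h3, h4] at h5
  omega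

lemma dbl_le (A : Set ℕ) (n : ℕ) : dbl A n ≤ 1 := by
  unfold dbl; split_ifs <;> simp

/-- the doubles have Abel density zero -/
lemma dbl_sum (A : Set ℕ) (K : ℕ) (hK : ∀ n, ord A n ≤ K) (q : ℝ) (hq0 : 0 ≤ q) (hq1 : q < 1) :
    ∑' n : ℕ, q ^ n * (dbl A n : ℝ) ≤ Real.sqrt (K * (1 - q)⁻¹) := by
  classical
  have hg := summable_geometric_of_lt_one hq0 hq1
  apply Real.tsum_le_of_sum_range_le
  · intro n; positivity
  intro N
  set F : Finset ℕ := (range N).filter (fun a => a ∈ A) with hF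
  have h1 : ∑ n ∈ range N, q ^ n * (dbl A n : ℝ) ≤ ∑ a ∈ F, q ^ a := by
    have e1 : ∑ n ∈ range N, q ^ n * (dbl A n : ℝ) =
        ∑ n ∈ (range N).filter (fun n => ∃ a ∈ A, a + a = n), q ^ n := by
      rw [Finset.sum_filter]
      apply Finset.sum_congr rfl
      intro n _
      unfold dbl
      split_ifs <;> simp
    rw [e1]
    have e2 : (range N).filter (fun n => ∃ a ∈ A, a + a = n) ⊆ F.image (fun a => a + a) := by
      intro n hn
      rw [mem_filter, mem_range] at hn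
      obtain ⟨hn1, a, ha, han⟩ := hn
      rw [mem_image]
      refine ⟨a, ?_, han⟩
      rw [hF, mem_filter, mem_range]
      exact ⟨by omega, ha⟩
    calc ∑ n ∈ (range N).filter (fun n => ∃ a ∈ A, a + a = n), q ^ n
        ≤ ∑ n ∈ F.image (fun a => a + a), q ^ n :=
          Finset.sum_le_sum_of_subset_of_nonneg e2 (fun _ _ _ => by positivity)
      _ = ∑ a ∈ F, q ^ (a + a) := by
          rw [Finset.sum_image]
          intro x _ y _ hxy
          simp only at hxy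
          omega
      _ ≤ ∑ a ∈ F, q ^ a := by
          apply Finset.sum_le_sum
          intro a _
          rw [pow_add]
          have : q ^ a ≤ 1 := pow_le_one₀ hq0 hq1.le
          have h0 : 0 ≤ q ^ a := by positivity
          nlinarith
  refine h1.trans ?_
  apply Real.le_sqrt_of_sq_le
  have h2 : (∑ a ∈ F, q ^ a) ^ 2 = ∑ p ∈ F ×ˢ F, q ^ (p.1 + p.2) := by
    rw [sq, Finset.sum_mul_sum, ← Finset.sum_product']
    apply Finset.sum_congr rfl
    intro p _
    rw [pow_add]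
  rw [h2]
  have h3 : ∑ p ∈ F ×ˢ F, q ^ (p.1 + p.2) =
      ∑ n ∈ range (2 * N), ∑ p ∈ (F ×ˢ F).filter (fun p => p.1 + p.2 = n), q ^ (p.1 + p.2) := by
    rw [Finset.sum_fiberwise_of_maps_to]
    intro p hp
    rw [mem_product, hF, mem_filter, mem_filter, mem_range, mem_range] at hp
    rw [mem_range]
    omega
  rw [h3]
  calc ∑ n ∈ range (2 * N), ∑ p ∈ (F ×ˢ F).filter (fun p => p.1 + p.2 = n), q ^ (p.1 + p.2)
      ≤ ∑ n ∈ range (2 * N), (K : ℝ) * q ^ n := by
        apply Finset.sum_le_sum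
        intro n _
        have e3 : ∑ p ∈ (F ×ˢ F).filter (fun p => p.1 + p.2 = n), q ^ (p.1 + p.2) =
            ∑ p ∈ (F ×ˢ F).filter (fun p => p.1 + p.2 = n), q ^ n := by
          apply Finset.sum_congr rfl
          intro p hp
          rw [(mem_filter.1 hp).2]
        rw [e3, Finset.sum_const, nsmul_eq_mul]
        apply mul_le_mul_of_nonneg_right _ (by positivity)
        have e4 : ((F ×ˢ F).filter (fun p => p.1 + p.2 = n)).card ≤ K := by
          refine le_trans ?_ (hK n)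
          rw [ord_eq]
          apply Finset.card_le_card
          rintro ⟨a, b⟩ hp
          simp only [P, hF, mem_filter, mem_product, HasAntidiagonal.mem_antidiagonal] at hp ⊢
          exact ⟨hp.2, hp.1.1.2, hp.1.2.2⟩
        exact_mod_cast e4
    _ = K * ∑ n ∈ range (2 * N), q ^ n := by rw [Finset.mul_sum]
    _ ≤ K * (1 - q)⁻¹ := by
        apply mul_le_mul_of_nonneg_left _ (Nat.cast_nonneg K)
        rw [← tsum_geometric_of_lt_one hq0 hq1]
        exact hg.sum_le_tsum _ (fun _ _ => by positivity)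

lemma infinite_of (A : Set ℕ) (n₀ : ℕ) (h : ∀ n, n₀ ≤ n → 1 ≤ ord A n) : A.Infinite := by
  intro hfin
  obtain ⟨M, hM⟩ := hfin.bddAbove
  have h1 := h (n₀ + 2 * M + 1) (by omega)
  rw [ord_eq] at h1
  obtain ⟨⟨a, b⟩, hp⟩ := Finset.card_pos.1 h1
  simp only [P, mem_filter, HasAntidiagonal.mem_antidiagonal] at hp
  have := hM hp.2.1
  have := hM hp.2.2
  omega

/-- the pointwise inequality -/
lemma point (K l ρ d B : ℕ) (b : ℝ) (hB : ρ ≤ B)
    (h : ((1 : ℝ) ≤ b) ∨ (l ≤ ρ ∧ ρ ≤ K + d)) (hd : d ≤ 1) (hb : 0 ≤ b) :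
    (ρ : ℝ) ^ 2 + K * l ≤ ((K : ℝ) + l) * ρ + ((K + 1) * d + b * ((B : ℝ) ^ 2 + K * l)) := by
  have hB' : (ρ : ℝ) ≤ B := by exact_mod_cast hB
  have h0 : (0 : ℝ) ≤ ρ := Nat.cast_nonneg _
  rcases h with h | ⟨h1, h2⟩
  · have a1 : (ρ : ℝ) ^ 2 ≤ (B : ℝ) ^ 2 := pow_le_pow_left₀ h0 hB' 2
    have a2 : 1 * ((B : ℝ) ^ 2 + K * l) ≤ b * ((B : ℝ) ^ 2 + K * l) :=
      mul_le_mul_of_nonneg_right h (by positivity)
    have a3 : 0 ≤ ((K : ℝ) + l) * ρ := by positivity
    have a4 : 0 ≤ ((K : ℝ) + 1) * d := by positivity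
    linarith
  · have a5 : 0 ≤ b * ((B : ℝ) ^ 2 + K * l) := by positivity
    have h1' : (l : ℝ) ≤ ρ := by exact_mod_cast h1
    rcases Nat.lt_or_ge K ρ with h3 | h3
    · have hρ : ρ = K + 1 := by omega
      have hd1 : d = 1 := by omega
      have e1 : (ρ : ℝ) = K + 1 := by rw [hρ]; push_cast; ring
      have e2 : (d : ℝ) = 1 := by rw [hd1]; norm_num
      have hl0 : (0 : ℝ) ≤ l := Nat.cast_nonneg _
      rw [e2, e1] at *
      nlinarith
    · have h3' : (ρ : ℝ) ≤ K := by exact_mod_cast h3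
      have a4 : 0 ≤ ((K : ℝ) + 1) * d := by positivity
      nlinarith [mul_nonneg (sub_nonneg.2 h1') (sub_nonneg.2 h3')]

/-- main inequality -/
theorem main (A : Set ℕ) (l K : ℕ) (hl : 1 ≤ l)
    (hlK : ((K : ℝ) + l - 1 / 2) ^ 2 < 4 * K * l)
    (h : ∀ᶠ n in atTop, 2 * l ≤ ord A n + 1) : ∃ᶠ n in atTop, 2 * K + 2 ≤ ord A n := by
  by_contra hcon
  rw [Filter.not_frequently] at hcon
  obtain ⟨n₀, hn₀⟩ := eventually_atTop.1 (h.and hcon)
  have hA : A.Infinite := infinite_of A n₀ (fun n hn => by have := (hn₀ n hn).1; omega)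
  have hd := dbl_le A
  have hod := ord_add_dbl A
  have hr : ∀ n, n₀ ≤ n → l ≤ rep A 2 n ∧ rep A 2 n ≤ K + dbl A n := by
    intro n hn
    obtain ⟨h1, h2⟩ := hn₀ n hn
    have := hod n
    have := hd n
    omega
  obtain ⟨B, hB⟩ := bounded_of_eventually A 2 (K + 1) n₀
    (fun n hn => by have := hr n hn; have := hd n; omega)
  have hO : ∀ n, ord A n ≤ 2 * B := fun n => by have := hod n; have := hB n; omega
  -- the gap
  set γ : ℝ := 4 * K * l - ((K : ℝ) + l - 1 / 2) ^ 2 with hγ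
  have hγ0 : 0 < γ := by rw [hγ]; linarith
  have hlaw := law A hA 1 1 le_rfl le_rfl B hB (γ / 16) (by positivity)
  have hch : ((1 + 1 : ℕ).choose 1 : ℝ) = 2 := by norm_num
  rw [hch] at hlaw
  set C1 : ℝ := n₀ * ((B : ℝ) ^ 2 + K * l) with hC1
  have hs1 : ∀ᶠ q : ℝ in 𝓝[<] 1, (1 - q) * C1 ≤ γ / 16 := by
    have t : Tendsto (fun q : ℝ => (1 - q) * C1) (𝓝[<] 1) (𝓝 0) := by
      have : Tendsto (fun q : ℝ => (1 - q) * C1) (𝓝 1) (𝓝 ((1 - 1) * C1)) :=
        ((continuous_const.sub continuous_id).mul continuous_const).tendsto (1 : ℝ)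
      rw [sub_self, zero_mul] at this
      exact this.mono_left nhdsWithin_le_nhds
    exact (t.eventually (gt_mem_nhds (by positivity))).mono fun x hx => hx.le
  have hs2 : ∀ᶠ q : ℝ in 𝓝[<] 1,
      ((K : ℝ) + 1) * Real.sqrt ((1 - q) * ((2 * B : ℕ) : ℝ)) ≤ γ / 16 := by
    have t : Tendsto (fun q : ℝ => ((K : ℝ) + 1) * Real.sqrt ((1 - q) * ((2 * B : ℕ) : ℝ)))
        (𝓝[<] 1) (𝓝 0) := by
      have : Tendsto (fun q : ℝ => ((K : ℝ) + 1) * Real.sqrt ((1 - q) * ((2 * B : ℕ) : ℝ)))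
          (𝓝 1) (𝓝 (((K : ℝ) + 1) * Real.sqrt ((1 - 1) * ((2 * B : ℕ) : ℝ)))) :=
        (continuous_const.mul (Real.continuous_sqrt.comp
          ((continuous_const.sub continuous_id).mul continuous_const))).tendsto (1 : ℝ)
      rw [sub_self, zero_mul, Real.sqrt_zero, mul_zero] at this
      exact this.mono_left nhdsWithin_le_nhds
    exact (t.eventually (gt_mem_nhds (by positivity))).mono fun x hx => hx.le
  obtain ⟨q, hq1, hq2, hq3, hq01⟩ := (hlaw.and (hs1.and (hs2.and eventually_Ioo))).exists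
  obtain ⟨hq0, hq1'⟩ := hq01
  have hu : 0 < 1 - q := by linarith
  have hu0 : (1 - q) ≠ 0 := hu.ne'
  have hg := summable_geometric_of_lt_one hq0.le hq1'
  have s1 := sum_pow_bdd (rep A 2) B hB 1 q hq0.le hq1'
  simp only [pow_one] at s1
  have s2 := sum_pow_bdd (rep A 2) B hB 2 q hq0.le hq1'
  have s3 := sum_pow_bdd (dbl A) 1 hd 1 q hq0.le hq1'
  simp only [pow_one] at s3
  obtain ⟨s4, e4⟩ := sum_ind n₀ ((B : ℝ) ^ 2 + K * l)
  have key : ∑' n : ℕ, (q ^ n * (rep A 2 n : ℝ) ^ 2 + (K * l : ℝ) * q ^ n) ≤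
      ∑' n : ℕ, (((K : ℝ) + l) * (q ^ n * (rep A 2 n : ℝ)) + ((K + 1) * (q ^ n * (dbl A n : ℝ)) +
        (if n < n₀ then (B : ℝ) ^ 2 + K * l else 0))) := by
    apply Summable.tsum_le_tsum _ (s2.add (hg.mul_left _))
      ((s1.mul_left _).add ((s3.mul_left _).add s4))
    intro n
    have hqn : 0 ≤ q ^ n := by positivity
    have hqn1 : q ^ n ≤ 1 := pow_le_one₀ hq0.le hq1'.le
    have hp := point K l (rep A 2 n) (dbl A n) B (if n < n₀ then 1 else 0) (hB n) (by
      by_cases hn : n < n₀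
      · left; rw [if_pos hn]
      · right; exact hr n (by omega)) (hd n) (by split_ifs <;> norm_num)
    have hp' := mul_le_mul_of_nonneg_left hp hqn
    have e5 : q ^ n * ((if n < n₀ then (1 : ℝ) else 0) * ((B : ℝ) ^ 2 + K * l)) ≤
        (if n < n₀ then (B : ℝ) ^ 2 + K * l else 0) := by
      split_ifs
      · rw [one_mul]
        have : 0 ≤ (B : ℝ) ^ 2 + K * l := by positivity
        nlinarith
      · simp
    linarith
  rw [Summable.tsum_add s2 (hg.mul_left _), Summable.tsum_add (s1.mul_left _)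
    ((s3.mul_left _).add s4), Summable.tsum_add (s3.mul_left _) s4, tsum_mul_left, tsum_mul_left,
    tsum_mul_left, e4, tsum_geometric_of_lt_one hq0.le hq1'] at key
  have hdb := dbl_sum A (2 * B) hO q hq0.le hq1'
  have hsq : (1 - q) * Real.sqrt (((2 * B : ℕ) : ℝ) * (1 - q)⁻¹) =
      Real.sqrt ((1 - q) * ((2 * B : ℕ) : ℝ)) := by
    have : (1 - q) * ((2 * B : ℕ) : ℝ) = (1 - q) ^ 2 * (((2 * B : ℕ) : ℝ) * (1 - q)⁻¹) := by
      field_simp
    conv_rhs => rw [this, Real.sqrt_mul (by positivity), Real.sqrt_sq hu.le]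
  have hdb' : (K + 1 : ℝ) * ((1 - q) * ∑' n : ℕ, q ^ n * (dbl A n : ℝ)) ≤ γ / 16 := by
    refine le_trans ?_ hq3
    apply mul_le_mul_of_nonneg_left _ (by positivity)
    rw [← hsq]
    exact mul_le_mul_of_nonneg_left hdb hu.le
  have key' := mul_le_mul_of_nonneg_left key hu.le
  have c1 : (1 - q) * (1 - q)⁻¹ = 1 := mul_inv_cancel₀ hu0
  have hM1 : M1 A (1 + 1) q = (1 - q) * ∑' n : ℕ, q ^ n * (rep A 2 n : ℝ) := rfl
  have hM2 : M2 A (1 + 1) q = (1 - q) * ∑' n : ℕ, q ^ n * (rep A 2 n : ℝ) ^ 2 := rfl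
  set lam := M1 A (1 + 1) q with hlam
  set mu := M2 A (1 + 1) q with hmu
  have m1 : mu + K * l ≤ (K + l) * lam +
      (K + 1 : ℝ) * ((1 - q) * ∑' n : ℕ, q ^ n * (dbl A n : ℝ)) + (1 - q) * C1 := by
    calc mu + K * l = mu + K * l * ((1 - q) * (1 - q)⁻¹) := by rw [c1, mul_one]
      _ = (1 - q) * (∑' n : ℕ, q ^ n * (rep A 2 n : ℝ) ^ 2 + K * l * (1 - q)⁻¹) := by
          rw [hM2]; ring
      _ ≤ _ := key'
      _ = _ := by rw [hM1, hC1]; ring
  have m2 : 0 ≤ (lam - ((K : ℝ) + l - 1 / 2) / 2) ^ 2 := sq_nonneg _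
  nlinarith

end Pool.Agent.TH863.OrdRep
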